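import Mathlib

/-!
# Definitions for the group part of the refutation of `S00834` (thread TH-F)

* `SD V C`      : semidirect product of an additive group `V` by a group `C` acting on it;
* `Z1 C U`      : the group of 1-cocycles, with its `C`-action;
* `mact`        : matrices over `R` acting on `Fin 15 → M`, `M` an `R`-module;
* `WW E Y`      : `(Fin 15 → E) × (Fin 15 → Y)`;
* `NN κ E`      : the normaliser of `M_15(A0)` in `AddAut (E^15) × GL_15(B)`;
* `G1s κ E`     : the image of `GL_15(A0)` in `NN κ E`;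
* `GG X C Y`    : `SD (WW E Y) (X × C)`, for a subgroup `X` of `NN κ E`;
* `Odd`, `Even` : the stage hypotheses;
* `GFacts`      : what the group part needs from the linear data (part A);
* `LFacts`      : the same for `BB` (not its opposite) and `Q` (not its dual): delivered by part A.
-/

set_option autoImplicit false
set_option linter.unusedSectionVars false

namespace QN43

open Matrix

/-- `15 × 15` matrices. -/
abbrev Mt (R : Type) : Type := Matrix (Fin 15) (Fin 15) R

/-! ## Semidirect products -/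

/-- The semidirect product of an additive group `V` by a group `C` acting on it. -/
@[ext] structure SD (V C : Type) where
  /-- the vector part -/
  v : V
  /-- the group part -/
  c : C

namespace SD

variable {V C : Type} [AddCommGroup V] [Group C] [DistribMulAction C V]

instance : Mul (SD V C) := ⟨fun x y => ⟨x.v + x.c • y.v, x.c * y.c⟩⟩
instance : One (SD V C) := ⟨⟨0, 1⟩⟩
instance : Inv (SD V C) := ⟨fun x => ⟨-(x.c⁻¹ • x.v), x.c⁻¹⟩⟩

@[simp] theorem mul_v (x y : SD V C) : (x * y).v = x.v + x.c • y.v := rfl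
@[simp] theorem mul_c (x y : SD V C) : (x * y).c = x.c * y.c := rfl
@[simp] theorem one_v : (1 : SD V C).v = 0 := rfl
@[simp] theorem one_c : (1 : SD V C).c = 1 := rfl
@[simp] theorem inv_v (x : SD V C) : (x⁻¹).v = -(x.c⁻¹ • x.v) := rfl
@[simp] theorem inv_c (x : SD V C) : (x⁻¹).c = x.c⁻¹ := rfl

instance : Group (SD V C) :=
  Group.ofLeftAxioms
    (fun x y z => by ext1 <;> simp [mul_smul, add_assoc, mul_assoc])
    (fun x => by ext1 <;> simp)
    (fun x => by ext1 <;> simp)

/-- The inclusion of `V`. -/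
def inl (v : V) : SD V C := ⟨v, 1⟩
/-- The inclusion of `C`. -/
def inr : C →* SD V C where
  toFun c := ⟨0, c⟩
  map_one' := rfl
  map_mul' c c' := by ext1 <;> simp
/-- The projection to `C`. -/
def pr : SD V C →* C where
  toFun x := x.c
  map_one' := rfl
  map_mul' _ _ := rfl

@[simp] theorem inl_v (v : V) : (inl v : SD V C).v = v := rfl
@[simp] theorem inl_c (v : V) : (inl v : SD V C).c = 1 := rfl
@[simp] theorem inr_v (c : C) : (inr c : SD V C).v = 0 := rfl
@[simp] theorem inr_c (c : C) : (inr c : SD V C).c = c := rfl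
@[simp] theorem pr_apply (x : SD V C) : pr x = x.c := rfl

/-- Every element is `inl v * inr c`. -/
theorem eq_mul (x : SD V C) : x = inl x.v * inr x.c := by ext1 <;> simp

theorem inl_mul_inl (v w : V) : (inl v * inl w : SD V C) = inl (v + w) := by ext1 <;> simp

theorem conj_inl (c : C) (v : V) : (inr c * inl v * (inr c)⁻¹ : SD V C) = inl (c • v) := by
  ext1 <;> simp

/-- `SD V C` as a product. -/
def equivProd : SD V C ≃ V × C where
  toFun x := (x.v, x.c)
  invFun p := ⟨p.1, p.2⟩
  left_inv _ := rfl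
  right_inv _ := rfl

instance [Finite V] [Finite C] : Finite (SD V C) := Finite.of_equiv _ equivProd.symm

theorem card_eq : Nat.card (SD V C) = Nat.card V * Nat.card C := by
  rw [Nat.card_congr (equivProd (V := V) (C := C)), Nat.card_prod]

end SD

/-! ## Cocycles -/

/-- The 1-cocycles `f : C → U`, `f (x y) = f x + x f y`. -/
def Z1 (C U : Type) [Group C] [AddCommGroup U] [DistribMulAction C U] : AddSubgroup (C → U) where
  carrier := {f | ∀ x y : C, f (x * y) = f x + x • f y}
  zero_mem' := by intro x y; simp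
  add_mem' := by
    intro f g hf hg x y
    simp only [Pi.add_apply, hf x y, hg x y, smul_add]
    abel
  neg_mem' := by
    intro f hf x y
    simp only [Pi.neg_apply, hf x y, smul_neg]
    abel

section Z1
variable {C U : Type} [Group C] [AddCommGroup U] [DistribMulAction C U]

theorem Z1.mul (f : Z1 C U) (x y : C) : f.1 (x * y) = f.1 x + x • f.1 y := f.2 x y

theorem Z1.one (f : Z1 C U) : f.1 1 = 0 := by
  have h := f.2 1 1
  simpa using h

theorem Z1.inv (f : Z1 C U) (x : C) : f.1 x⁻¹ = -(x⁻¹ • f.1 x) := by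
  have h := f.2 x⁻¹ x
  rw [inv_mul_cancel, Z1.one] at h
  exact (eq_neg_of_add_eq_zero_left h.symm)

/-- The action of `C` on cocycles: `(c f)(x) = c f(c⁻¹ x c)`. -/
instance : DistribMulAction C (Z1 C U) where
  smul c f := ⟨fun x => c • f.1 (c⁻¹ * x * c), by
    intro x y
    have h : c⁻¹ * (x * y) * c = (c⁻¹ * x * c) * (c⁻¹ * y * c) := by group
    show c • f.1 (c⁻¹ * (x * y) * c) = c • f.1 (c⁻¹ * x * c) + x • c • f.1 (c⁻¹ * y * c)
    rw [h, f.2, smul_add, ← mul_smul, ← mul_smul]
    congr 2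
    group⟩
  one_smul f := by
    apply Subtype.ext
    funext x
    show (1 : C) • f.1 ((1 : C)⁻¹ * x * 1) = f.1 x
    simp
  mul_smul c d f := by
    apply Subtype.ext
    funext x
    show (c * d) • f.1 ((c * d)⁻¹ * x * (c * d)) = c • d • f.1 (d⁻¹ * (c⁻¹ * x * c) * d)
    rw [mul_smul]
    congr 3
    group
  smul_zero c := by
    apply Subtype.ext
    funext x
    show c • (0 : U) = 0
    simp
  smul_add c f g := by
    apply Subtype.ext
    funext x
    show c • (f.1 (c⁻¹ * x * c) + g.1 (c⁻¹ * x * c)) = c • f.1 (c⁻¹ * x * c) + c • g.1 (c⁻¹ * x * c)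
    rw [smul_add]

theorem Z1.smul_apply (c : C) (f : Z1 C U) (x : C) : (c • f).1 x = c • f.1 (c⁻¹ * x * c) := rfl

/-- The coboundary of `u`: `x ↦ x u - u`. -/
def Z1.delta : U →+ Z1 C U where
  toFun u := ⟨fun x => x • u - u, by
    intro x y
    show (x * y) • u - u = (x • u - u) + x • (y • u - u)
    rw [smul_sub, mul_smul]
    abel⟩
  map_zero' := by
    apply Subtype.ext
    funext x
    show x • (0 : U) - 0 = 0
    simp
  map_add' u v := by
    apply Subtype.ext
    funext x
    show x • (u + v) - (u + v) = (x • u - u) + (x • v - v)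
    rw [smul_add]
    abel

theorem Z1.delta_apply (u : U) (x : C) : (Z1.delta (C := C) u).1 x = x • u - u := rfl

/-- Scalars from a ring `B` commuting with `C` act on cocycles. -/
instance {B : Type} [Ring B] [Module B U] [SMulCommClass C B U] : Module B (Z1 C U) where
  smul b f := ⟨fun x => b • f.1 x, by
    intro x y
    show b • f.1 (x * y) = b • f.1 x + x • b • f.1 y
    rw [f.2, smul_add, smul_comm x b]⟩
  one_smul f := by
    apply Subtype.ext
    funext x
    exact one_smul B (f.1 x)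
  mul_smul a b f := by
    apply Subtype.ext
    funext x
    exact mul_smul a b (f.1 x)
  smul_zero a := by
    apply Subtype.ext
    funext x
    exact smul_zero a
  smul_add a f g := by
    apply Subtype.ext
    funext x
    exact smul_add a (f.1 x) (g.1 x)
  add_smul a b f := by
    apply Subtype.ext
    funext x
    exact add_smul a b (f.1 x)
  zero_smul f := by
    apply Subtype.ext
    funext x
    exact zero_smul B (f.1 x)

theorem Z1.bsmul_apply {B : Type} [Ring B] [Module B U] [SMulCommClass C B U] (b : B)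
    (f : Z1 C U) (x : C) : (b • f).1 x = b • f.1 x := rfl

instance {B : Type} [Ring B] [Module B U] [SMulCommClass C B U] : SMulCommClass C B (Z1 C U) where
  smul_comm c b f := by
    apply Subtype.ext
    funext x
    show c • b • f.1 (c⁻¹ * x * c) = b • c • f.1 (c⁻¹ * x * c)
    rw [smul_comm]

end Z1

/-! ## Matrices acting on column vectors -/

section mact
variable {R M : Type} [Ring R] [AddCommGroup M] [Module R M]

/-- A matrix acting on column vectors. -/
def mactAux (m : Mt R) : (Fin 15 → M) →+ (Fin 15 → M) where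
  toFun v i := ∑ j, m i j • v j
  map_zero' := by funext i; simp
  map_add' v w := by
    funext i
    simp [smul_add, Finset.sum_add_distrib]

/-- Matrices over `R` acting on column vectors with entries in the `R`-module `M`. -/
def mact : Mt R →+* AddMonoid.End (Fin 15 → M) where
  toFun := mactAux
  map_one' := by
    apply AddMonoidHom.ext
    intro v
    funext i
    show ∑ j, (1 : Mt R) i j • v j = v i
    simp [Matrix.one_apply, ite_smul]
  map_mul' m n := by
    apply AddMonoidHom.ext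
    intro v
    funext i
    show ∑ j, (m * n) i j • v j = ∑ j, m i j • ∑ l, n j l • v l
    simp_rw [Matrix.mul_apply, Finset.sum_smul, Finset.smul_sum, mul_smul]
    rw [Finset.sum_comm]
  map_zero' := by
    apply AddMonoidHom.ext
    intro v
    funext i
    show ∑ j, (0 : R) • v j = 0
    simp
  map_add' m n := by
    apply AddMonoidHom.ext
    intro v
    funext i
    show ∑ j, (m i j + n i j) • v j = ∑ j, m i j • v j + ∑ j, n i j • v j
    simp [add_smul, Finset.sum_add_distrib]

theorem mact_apply (m : Mt R) (v : Fin 15 → M) (i : Fin 15) :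
    mact m v i = ∑ j, m i j • v j := rfl

theorem mact_mul_apply (m n : Mt R) (v : Fin 15 → M) : mact (m * n) v = mact m (mact n v) := by
  rw [map_mul]; rfl

@[simp] theorem mact_one_apply (v : Fin 15 → M) : mact (1 : Mt R) v = v := by
  rw [map_one]; rfl

theorem mact_add_apply (m n : Mt R) (v : Fin 15 → M) : mact (m + n) v = mact m v + mact n v := by
  rw [map_add]; rfl

/-- An invertible matrix as a unit of the endomorphism ring of the column vectors. -/
def mactU : (Mt R)ˣ →* (AddMonoid.End (Fin 15 → M))ˣ where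
  toFun g :=
    { val := mact (g : Mt R)
      inv := mact ((g⁻¹ : (Mt R)ˣ) : Mt R)
      val_inv := by rw [← map_mul, Units.mul_inv, map_one]
      inv_val := by rw [← map_mul, Units.inv_mul, map_one] }
  map_one' := by
    ext1
    exact map_one mact
  map_mul' g h := by
    ext1
    exact map_mul mact (g : Mt R) (h : Mt R)

theorem mactU_val (g : (Mt R)ˣ) :
    ((mactU g : (AddMonoid.End (Fin 15 → M))ˣ) : AddMonoid.End (Fin 15 → M)) = mact (g : Mt R) :=
  rfl

end mact

/-! ## The ring `A0`, the normaliser `NN`, the groups `GG` -/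

/-- `M_15(A0) → M_15(B)`, `m ↦ κ(m)ᵀ` (an anti-homomorphism). -/
def kT {A B : Type} [Ring A] [Ring B] (κ : A →+* B) (m : Mt A) : Mt B := fun i j => κ (m j i)

section kT
variable {A B : Type} [CommRing A] [Ring B] (κ : A →+* B)

@[simp] theorem kT_apply (m : Mt A) (i j : Fin 15) : kT κ m i j = κ (m j i) := rfl

theorem kT_mul (m n : Mt A) : kT κ (m * n) = kT κ n * kT κ m := by
  funext i j
  simp only [kT_apply, Matrix.mul_apply, map_sum, map_mul]
  refine Finset.sum_congr rfl fun l _ => ?_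
  rw [← map_mul, ← map_mul, mul_comm]

@[simp] theorem kT_one : kT κ (1 : Mt A) = 1 := by
  funext i j
  by_cases h : i = j
  · subst h; simp [kT_apply]
  · have h' : j ≠ i := fun e => h e.symm
    simp [kT_apply, Matrix.one_apply_ne h, Matrix.one_apply_ne h']

theorem kT_add (m n : Mt A) : kT κ (m + n) = kT κ m + kT κ n := by
  funext i j
  simp [kT_apply]

/-- The inverse transpose of `g`, with entries mapped by `κ`. -/
def invT : (Mt A)ˣ →* (Mt B)ˣ where
  toFun g :=
    { val := kT κ ((g⁻¹ : (Mt A)ˣ) : Mt A)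
      inv := kT κ (g : Mt A)
      val_inv := by rw [← kT_mul, Units.mul_inv, kT_one]
      inv_val := by rw [← kT_mul, Units.inv_mul, kT_one] }
  map_one' := by
    ext1
    show kT κ (((1 : (Mt A)ˣ)⁻¹ : (Mt A)ˣ) : Mt A) = 1
    simp
  map_mul' g h := by
    ext1
    show kT κ (((g * h)⁻¹ : (Mt A)ˣ) : Mt A)
      = kT κ ((g⁻¹ : (Mt A)ˣ) : Mt A) * kT κ ((h⁻¹ : (Mt A)ˣ) : Mt A)
    rw [_root_.mul_inv_rev, Units.val_mul, kT_mul]

theorem invT_val (g : (Mt A)ˣ) : ((invT κ g : (Mt B)ˣ) : Mt B) = kT κ ((g⁻¹ : (Mt A)ˣ) : Mt A) :=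
  rfl

end kT

section NN

variable {A : Type} [CommRing A] {B : Type} [Ring B] (κ : A →+* B)
variable (E : Type) [AddCommGroup E] [Module A E]

/-- `n` conjugates `m` to `m'`, on `E^15` and (transposed) in `M_15(B)`. -/
def Rel (n : (AddMonoid.End (Fin 15 → E))ˣ × (Mt B)ˣ) (m m' : Mt A) : Prop :=
  (n.1 : AddMonoid.End (Fin 15 → E)) * mact m = mact m' * (n.1 : AddMonoid.End (Fin 15 → E)) ∧
    (n.2 : Mt B) * kT κ m = kT κ m' * (n.2 : Mt B)

/-- The normaliser of `M_15(A0)` in `Aut(E^15) × GL_15(B)`. -/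
def NN : Subgroup ((AddMonoid.End (Fin 15 → E))ˣ × (Mt B)ˣ) where
  carrier := {n | (∀ m, ∃ m', Rel κ E n m m') ∧ ∀ m', ∃ m, Rel κ E n m m'}
  one_mem' := by
    refine ⟨fun m => ⟨m, ?_, ?_⟩, fun m => ⟨m, ?_, ?_⟩⟩ <;> simp
  mul_mem' := by
    rintro a b ⟨ha, ha'⟩ ⟨hb, hb'⟩
    have key : ∀ m m' m'', Rel κ E b m m' → Rel κ E a m' m'' → Rel κ E (a * b) m m'' := by
      rintro m m' m'' ⟨h1, h2⟩ ⟨h3, h4⟩
      refine ⟨?_, ?_⟩
      · rw [Prod.fst_mul, Units.val_mul, mul_assoc, h1, ← mul_assoc, h3, mul_assoc]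
      · rw [Prod.snd_mul, Units.val_mul, mul_assoc, h2, ← mul_assoc, h4, mul_assoc]
    refine ⟨fun m => ?_, fun m => ?_⟩
    · obtain ⟨m', h1⟩ := hb m
      obtain ⟨m'', h2⟩ := ha m'
      exact ⟨m'', key _ _ _ h1 h2⟩
    · obtain ⟨m', h1⟩ := ha' m
      obtain ⟨m'', h2⟩ := hb' m'
      exact ⟨m'', key _ _ _ h2 h1⟩
  inv_mem' := by
    rintro a ⟨ha, ha'⟩
    have key : ∀ m m', Rel κ E a m m' → Rel κ E a⁻¹ m' m := by
      rintro m m' ⟨h1, h2⟩
      refine ⟨?_, ?_⟩
      · rw [Prod.fst_inv, Units.inv_mul_eq_iff_eq_mul, ← mul_assoc, h1, mul_assoc, Units.mul_inv,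
          mul_one]
      · rw [Prod.snd_inv, Units.inv_mul_eq_iff_eq_mul, ← mul_assoc, h2, mul_assoc, Units.mul_inv,
          mul_one]
    refine ⟨fun m => ?_, fun m => ?_⟩
    · obtain ⟨m', h⟩ := ha' m
      exact ⟨m', key _ _ h⟩
    · obtain ⟨m', h⟩ := ha m
      exact ⟨m', key _ _ h⟩

/-- The pair `(g, κ(g⁻¹)ᵀ)`. -/
def sig0 : (Mt A)ˣ →* (AddMonoid.End (Fin 15 → E))ˣ × (Mt B)ˣ :=
  (mactU (M := E)).prod (invT κ)

theorem rel_sig (g : (Mt A)ˣ) (m : Mt A) :
    Rel κ E (sig0 κ E g) m ((g : Mt A) * m * ((g⁻¹ : (Mt A)ˣ) : Mt A)) := by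
  refine ⟨?_, ?_⟩
  · show mact (M := E) (g : Mt A) * mact m
      = mact ((g : Mt A) * m * ((g⁻¹ : (Mt A)ˣ) : Mt A)) * mact (g : Mt A)
    rw [← map_mul, ← map_mul, mul_assoc, mul_assoc, Units.inv_mul, mul_one]
  · show ((invT κ g : (Mt B)ˣ) : Mt B) * kT κ m = kT κ _ * ((invT κ g : (Mt B)ˣ) : Mt B)
    rw [invT_val, ← kT_mul, ← kT_mul, mul_assoc, ← mul_assoc _ (g : Mt A), Units.inv_mul, one_mul]

theorem sig0_mem (g : (Mt A)ˣ) : sig0 κ E g ∈ NN κ E := by
  refine ⟨fun m => ⟨_, rel_sig κ E g m⟩, fun m => ?_⟩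
  refine ⟨((g⁻¹ : (Mt A)ˣ) : Mt A) * m * (g : Mt A), ?_⟩
  have h := rel_sig κ E g (((g⁻¹ : (Mt A)ˣ) : Mt A) * m * (g : Mt A))
  have e : (g : Mt A) * (((g⁻¹ : (Mt A)ˣ) : Mt A) * m * (g : Mt A)) * ((g⁻¹ : (Mt A)ˣ) : Mt A)
      = m := by
    rw [mul_assoc, mul_assoc, mul_assoc, Units.mul_inv, mul_one, ← mul_assoc, Units.mul_inv,
      one_mul]
  rwa [e] at h

/-- `GL_15(A0) → NN`: `g ↦ (g, κ(g⁻¹)ᵀ)`. -/
def sig : (Mt A)ˣ →* NN κ E := (sig0 κ E).codRestrict (NN κ E) (sig0_mem κ E)

theorem sig_fst (g : (Mt A)ˣ) : ((sig κ E g).1.1 : AddMonoid.End (Fin 15 → E)) = mact (g : Mt A) :=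
  rfl

theorem sig_snd (g : (Mt A)ˣ) : ((sig κ E g).1.2 : Mt B) = kT κ ((g⁻¹ : (Mt A)ˣ) : Mt A) := rfl

/-- The image of `GL_15(A0)` in `NN`. -/
def G1s : Subgroup (NN κ E) := (sig κ E).range

end NN

/-- The module `E^15 × Y^15`. -/
def WW (E Y : Type) : Type := (Fin 15 → E) × (Fin 15 → Y)

instance (E Y : Type) [AddCommGroup E] [AddCommGroup Y] : AddCommGroup (WW E Y) :=
  inferInstanceAs (AddCommGroup ((Fin 15 → E) × (Fin 15 → Y)))

instance (E Y : Type) [Finite E] [Finite Y] : Finite (WW E Y) :=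
  inferInstanceAs (Finite ((Fin 15 → E) × (Fin 15 → Y)))

section GG

variable {A : Type} [CommRing A] {B : Type} [Ring B] {κ : A →+* B}
variable {E : Type} [AddCommGroup E] [Module A E]
variable {C Y : Type} [Group C] [AddCommGroup Y] [Module B Y] [DistribMulAction C Y]
  [SMulCommClass C B Y]

/-- The action of `(n, c)` on `E^15 × Y^15`: `n` acts on both, `c` on `Y^15` only. -/
def wact (n : NN κ E) (c : C) (w : WW E Y) : WW E Y :=
  ((n.1.1 : AddMonoid.End (Fin 15 → E)) w.1, mact (n.1.2 : Mt B) (fun i => c • w.2 i))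

theorem mact_smul (m : Mt B) (c : C) (y : Fin 15 → Y) :
    mact m (fun i => c • y i) = fun i => c • mact m y i := by
  funext i
  simp only [mact_apply, Finset.smul_sum]
  refine Finset.sum_congr rfl fun j _ => ?_
  rw [smul_comm c (m i j) (y j)]

instance instWWact (X : Subgroup (NN κ E)) : DistribMulAction (X × C) (WW E Y) where
  smul g w := wact g.1.1 g.2 w
  one_smul w := by
    show wact 1 1 w = w
    refine Prod.ext ?_ ?_
    · rfl
    · show mact (1 : Mt B) (fun i => (1 : C) • w.2 i) = w.2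
      simp
  mul_smul g h w := by
    show wact (g.1.1 * h.1.1) (g.2 * h.2) w = wact g.1.1 g.2 (wact h.1.1 h.2 w)
    refine Prod.ext ?_ ?_
    · rfl
    · show mact ((g.1.1.1.2 : Mt B) * (h.1.1.1.2 : Mt B)) (fun i => (g.2 * h.2) • w.2 i)
        = mact (g.1.1.1.2 : Mt B) (fun i => g.2 • mact (h.1.1.1.2 : Mt B) (fun i => h.2 • w.2 i) i)
      rw [mact_mul_apply, ← mact_smul]
      simp only [mul_smul]
  smul_zero g := by
    show wact g.1.1 g.2 0 = 0
    refine Prod.ext ?_ ?_
    · exact map_zero _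
    · show mact (g.1.1.1.2 : Mt B) (fun i => g.2 • (0 : Y)) = 0
      simp only [smul_zero]
      exact map_zero _
  smul_add g v w := by
    show wact g.1.1 g.2 (v + w) = wact g.1.1 g.2 v + wact g.1.1 g.2 w
    refine Prod.ext ?_ ?_
    · exact map_add _ _ _
    · show mact (g.1.1.1.2 : Mt B) (fun i => g.2 • (v.2 i + w.2 i)) = _
      simp only [smul_add]
      exact map_add (mact (g.1.1.1.2 : Mt B)) (fun i => g.2 • v.2 i) (fun i => g.2 • w.2 i)

theorem ww_fst (X : Subgroup (NN κ E)) (g : X × C) (w : WW E Y) :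
    (g • w).1 = (g.1.1.1.1 : AddMonoid.End (Fin 15 → E)) w.1 := rfl

theorem ww_snd (X : Subgroup (NN κ E)) (g : X × C) (w : WW E Y) :
    (g • w).2 = mact (g.1.1.1.2 : Mt B) (fun i => g.2 • w.2 i) := rfl

/-- The groups `(E^15 × Y^15) ⋊ (X × C)`, `X` a subgroup of `NN`. -/
abbrev GG (X : Subgroup (NN κ E)) (C Y : Type) [Group C] [AddCommGroup Y] [Module B Y]
    [DistribMulAction C Y] [SMulCommClass C B Y] : Type := SD (WW E Y) (X × C)

end GG

end QN43
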