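import Mathlib
import Pool.Agent.Helper43.QN.Defs

/-!
# The stage predicates and the interface with the linear data (thread TH-F)
-/

set_option autoImplicit false
set_option linter.unusedSectionVars false

namespace QN43

/-- **ODD stage** `(C, Y)` (over the ring `B = BB^op` acting from the left). -/
structure Odd (B C Y : Type) [Ring B] [Group C] [AddCommGroup Y] [Module B Y]
    [DistribMulAction C Y] [SMulCommClass C B Y] : Prop where
  finC : Finite C
  finY : Finite Y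
  perf : commutator C = ⊤
  endo : ∀ f : Y →+ Y, (∀ (c : C) (y : Y), f (c • y) = c • f y) → ∃ b : B, ∀ y, f y = b • y
  faith : ∀ b : B, (∀ y : Y, b • y = 0) → b = 0
  fix : ∀ y : Y, (∀ c : C, c • y = y) → y = 0
  inner : ∀ θ : C ≃* C, (∀ c : C, (∀ y : Y, c • y = y) → ∀ y : Y, θ c • y = y) →
    ∃ g : C, ∀ c, θ c = g * c * g⁻¹
  piTriv : ∀ c : C, c ^ 151 = 1 → ∀ y : Y, c • y = y
  piCent : ∀ c : C, (∀ y : Y, c • y = y) → (∀ x : C, x ^ 151 = 1 → c * x = x * c) → c = 1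
  cent : ∀ c : C, (∀ (x : C) (y : Y), c • x • y = x • c • y) → ∀ y : Y, c • y = y

/-- **EVEN stage**: `q : C ↠ O`; `C` acts on `U` through `q`. -/
structure Even {C O : Type} (U : Type) [Group C] [Group O] [AddCommGroup U]
    [DistribMulAction C U] (q : C →* O) : Prop where
  finC : Finite C
  perf : commutator C = ⊤
  surj : Function.Surjective q
  piCent : ∀ c : C, (∀ x : C, x ^ 151 = 1 → c * x = x * c) → c = 1
  inner : ∀ θ : C ≃* C, (∀ c : C, (∀ f : Z1 C U, f.1 c = 0) → ∀ f : Z1 C U, f.1 (θ c) = 0) →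
    ∃ g : C, ∀ c, θ c = g * c * g⁻¹

section N0

variable {A : Type} [CommRing A] {B : Type} [Ring B] (κ : A →+* B)
variable (E : Type) [AddCommGroup E] [Module A E]

/-- `(e, b)` conjugates the scalar `a` to `a'`. -/
def Rel0 (n : (AddMonoid.End E)ˣ × Bˣ) (a a' : A) : Prop :=
  (∀ x : E, (n.1 : AddMonoid.End E) (a • x) = a' • (n.1 : AddMonoid.End E) x) ∧
    (n.2 : B) * κ a = κ a' * (n.2 : B)

/-- `NN0`: the pairs `(e, b)` in `Aut(E) × Bˣ` normalising the scalars `A`. -/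
def NN0 : Subgroup ((AddMonoid.End E)ˣ × Bˣ) where
  carrier := {n | (∀ a, ∃ a', Rel0 κ E n a a') ∧ ∀ a', ∃ a, Rel0 κ E n a a'}
  one_mem' := by
    refine ⟨fun m => ⟨m, fun x => rfl, ?_⟩, fun m => ⟨m, fun x => rfl, ?_⟩⟩ <;> simp
  mul_mem' := by
    rintro a b ⟨ha, ha'⟩ ⟨hb, hb'⟩
    have key : ∀ m m' m'', Rel0 κ E b m m' → Rel0 κ E a m' m'' → Rel0 κ E (a * b) m m'' := by
      rintro m m' m'' ⟨h1, h2⟩ ⟨h3, h4⟩
      refine ⟨fun x => ?_, ?_⟩
      · show (a.1 : AddMonoid.End E) ((b.1 : AddMonoid.End E) (m • x))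
          = m'' • (a.1 : AddMonoid.End E) ((b.1 : AddMonoid.End E) x)
        rw [h1, h3]
      · rw [Prod.snd_mul, Units.val_mul, mul_assoc, h2, ← mul_assoc, h4, mul_assoc]
    refine ⟨fun m => ?_, fun m => ?_⟩
    · obtain ⟨m', h1⟩ := hb m
      obtain ⟨m'', h2⟩ := ha m'
      exact ⟨m'', key _ _ _ h1 h2⟩
    · obtain ⟨m', h1⟩ := ha' m
      obtain ⟨m'', h2⟩ := hb' m'
      exact ⟨m'', key _ _ _ h2 h1⟩
  inv_mem' := by
    rintro a ⟨ha, ha'⟩
    have key : ∀ m m', Rel0 κ E a m m' → Rel0 κ E a⁻¹ m' m := by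
      rintro m m' ⟨h1, h2⟩
      refine ⟨fun x => ?_, ?_⟩
      · have h3 := h1 (((a.1⁻¹ : (AddMonoid.End E)ˣ) : AddMonoid.End E) x)
        have h4 : ∀ y : E, (a.1 : AddMonoid.End E)
            (((a.1⁻¹ : (AddMonoid.End E)ˣ) : AddMonoid.End E) y) = y := fun y => by
          have := congrArg (fun g : AddMonoid.End E => g y) (Units.mul_inv a.1)
          exact this
        have h5 : ∀ y : E, ((a.1⁻¹ : (AddMonoid.End E)ˣ) : AddMonoid.End E)
            ((a.1 : AddMonoid.End E) y) = y := fun y => by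
          have := congrArg (fun g : AddMonoid.End E => g y) (Units.inv_mul a.1)
          exact this
        rw [h4] at h3
        show ((a.1⁻¹ : (AddMonoid.End E)ˣ) : AddMonoid.End E) (m' • x)
          = m • ((a.1⁻¹ : (AddMonoid.End E)ˣ) : AddMonoid.End E) x
        rw [← h3, h5]
      · rw [Prod.snd_inv, Units.inv_mul_eq_iff_eq_mul, ← mul_assoc, h2, mul_assoc, Units.mul_inv,
          mul_one]
    refine ⟨fun m => ?_, fun m => ?_⟩
    · obtain ⟨m', h⟩ := ha' m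
      exact ⟨m', key _ _ h⟩
    · obtain ⟨m', h⟩ := ha m
      exact ⟨m', key _ _ h⟩

end N0

/-- `A0 = F_2 + J`, `J² = 0`. -/
abbrev A0 (J : Type) [AddCommGroup J] [Module (ZMod 2) J] : Type := TrivSqZeroExt (ZMod 2) J

/-- **What part A delivers.**  `BB` a ring, `E`, `W` modules over `A0 J = F_2 + J`, `Q` a
`BB`-module, `O` a group acting on `W` and `Q`, `ι : A0 J → BB`, `0 → E → W → Q → 0` exact,
`Φ : J ≃ W^15`, `p : NN0 → O`. -/
structure LFacts {J BB E W Q O : Type}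
    [AddCommGroup J] [Module (ZMod 2) J] [Module (ZMod 2)ᵐᵒᵖ J] [IsCentralScalar (ZMod 2) J]
    [Ring BB] [AddCommGroup E] [Module (A0 J) E] [AddCommGroup W] [Module (A0 J) W]
    [AddCommGroup Q] [Module BB Q] [Group O] [DistribMulAction O W] [DistribMulAction O Q]
    (ι : A0 J →+* BB) (inc : E →+ W) (pi : W →+ Q) (Φ : J ≃+ (Fin 15 → W))
    (p : NN0 ι E →* O) : Prop where
  finJ : Finite J
  finB : Finite BB
  finE : Finite E
  finW : Finite W
  finQ : Finite Q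
  finO : Finite O
  nontrivJ : Nontrivial J
  nontrivQ : Nontrivial Q
  perfO : commutator O = ⊤
  cop : ¬ 151 ∣ Nat.card O
  iotaInj : Function.Injective ι
  incInj : Function.Injective inc
  piSurj : Function.Surjective pi
  incSmul : ∀ (a : A0 J) (x : E), inc (a • x) = a • inc x
  incRange : ∀ w : W, (∃ x, inc x = w) ↔ ∀ o : O, o • w = w
  piKer : ∀ w : W, pi w = 0 ↔ ∃ x, inc x = w
  piO : ∀ (o : O) (w : W), pi (o • w) = o • pi w
  piA : ∀ (a : A0 J) (w : W), pi (a • w) = ι a • pi w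
  commW : ∀ (o : O) (a : A0 J) (w : W), o • a • w = a • o • w
  commQ : ∀ (o : O) (b : BB) (x : Q), o • b • x = b • o • x
  coinv : AddSubgroup.closure {w : W | ∃ (o : O) (u : W), w = o • u - u} = ⊤
  endW : ∀ f : W →+ W, (∀ (o : O) (w : W), f (o • w) = o • f w) → ∃ a : A0 J, ∀ w, f w = a • w
  faithW : ∀ a : A0 J, (∀ w : W, a • w = 0) → a = 0
  faithO : ∀ o : O, (∀ w : W, o • w = w) → o = 1
  endQ : ∀ f : Q →+ Q, (∀ (o : O) (x : Q), f (o • x) = o • f x) → ∃ b : BB, ∀ x, f x = b • x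
  faithQ : ∀ b : BB, (∀ x : Q, b • x = 0) → b = 0
  centQ : ∀ o : O, (∀ (x : O) (y : Q), o • x • y = x • o • y) → ∀ y : Q, o • y = y
  pSurj : Function.Surjective p
  phiP : ∀ (n : NN0 ι E) (j j' : J), Rel0 ι E n.1 (TrivSqZeroExt.inr j) (TrivSqZeroExt.inr j') →
    ∀ i, Φ j' i = p n • Φ j i
  kerSq : ∀ n : NN0 ι E, p n = 1 → n * n = 1
  perfN : ∀ n : NN0 ι E, ∃ c ∈ commutator (NN0 ι E), ∃ (m : NN0 ι E) (a : (A0 J)ˣ),
    (∀ x : E, (m.1.1 : AddMonoid.End E) x = (a : A0 J) • x) ∧ ((m.1.2 : BBˣ) : BB) = ι a ∧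
      n = c * m

/-- **What the group part uses** (obtained from `LFacts` with `B = BB^op`, `U = Hom(Q, F_2)`).
`jU u` is the functional on `W` given by `u ∈ U`; it vanishes on `E`. -/
structure GFacts {J B E W U O : Type}
    [AddCommGroup J] [Module (ZMod 2) J] [Module (ZMod 2)ᵐᵒᵖ J] [IsCentralScalar (ZMod 2) J]
    [Ring B] [AddCommGroup E] [Module (A0 J) E] [AddCommGroup W] [Module (A0 J) W]
    [AddCommGroup U] [Module B U] [Group O] [DistribMulAction O W] [DistribMulAction O U]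
    (κ : A0 J →+* B) (inc : E →+ W) (jU : U →+ (W →+ ZMod 2)) (Φ : J ≃+ (Fin 15 → W))
    (p : NN0 κ E →* O) : Prop where
  finJ : Finite J
  finB : Finite B
  finE : Finite E
  finW : Finite W
  finU : Finite U
  finO : Finite O
  nontrivJ : Nontrivial J
  nontrivU : Nontrivial U
  perfO : commutator O = ⊤
  cop : ¬ 151 ∣ Nat.card O
  kapInj : Function.Injective κ
  incInj : Function.Injective inc
  incSmul : ∀ (a : A0 J) (x : E), inc (a • x) = a • inc x
  incRange : ∀ w : W, (∃ x, inc x = w) ↔ ∀ o : O, o • w = w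
  jInj : Function.Injective jU
  jRange : ∀ φ : W →+ ZMod 2, (∃ u, jU u = φ) ↔ ∀ x, φ (inc x) = 0
  jO : ∀ (o : O) (u : U) (w : W), jU (o • u) w = jU u (o⁻¹ • w)
  jA : ∀ (a : A0 J) (u : U) (w : W), jU (κ a • u) w = jU u (a • w)
  commW : ∀ (o : O) (a : A0 J) (w : W), o • a • w = a • o • w
  commU : ∀ (o : O) (b : B) (x : U), o • b • x = b • o • x
  coinv : AddSubgroup.closure {w : W | ∃ (o : O) (u : W), w = o • u - u} = ⊤
  fixU : ∀ u : U, (∀ o : O, o • u = u) → u = 0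
  coinvU : AddSubgroup.closure {w : U | ∃ (o : O) (u : U), w = o • u - u} = ⊤
  endW : ∀ f : W →+ W, (∀ (o : O) (w : W), f (o • w) = o • f w) → ∃ a : A0 J, ∀ w, f w = a • w
  faithW : ∀ a : A0 J, (∀ w : W, a • w = 0) → a = 0
  faithO : ∀ o : O, (∀ w : W, o • w = w) → o = 1
  endU : ∀ f : U →+ U, (∀ (o : O) (x : U), f (o • x) = o • f x) → ∃ b : B, ∀ x, f x = b • x
  faithU : ∀ b : B, (∀ x : U, b • x = 0) → b = 0
  centU : ∀ o : O, (∀ (x : O) (y : U), o • x • y = x • o • y) → ∀ y : U, o • y = y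
  pSurj : Function.Surjective p
  phiP : ∀ (n : NN0 κ E) (j j' : J), Rel0 κ E n.1 (TrivSqZeroExt.inr j) (TrivSqZeroExt.inr j') →
    ∀ i, Φ j' i = p n • Φ j i
  kerSq : ∀ n : NN0 κ E, p n = 1 → n * n = 1
  perfN : ∀ n : NN0 κ E, ∃ c ∈ commutator (NN0 κ E), ∃ (m : NN0 κ E) (a : (A0 J)ˣ),
    (∀ x : E, (m.1.1 : AddMonoid.End E) x = (a : A0 J) • x) ∧
      ((m.1.2 : Bˣ) : B) = κ ((a⁻¹ : (A0 J)ˣ) : A0 J) ∧ n = c * m

end QN43
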