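import Mathlib

/-!
# The functor `F(N) = Hom(N, C₂) ⋊ Aut N` and `Aut (D × N)` (frame for `S00834`, part 2)
-/

set_option autoImplicit false

namespace QN43

/-- The cyclic group of order two, written multiplicatively. -/
abbrev C2 : Type := Multiplicative (ZMod 2)

/-- The characters `N → C₂`. -/
abbrev X (N : Type) [Group N] : Type := N →* C2

/-- The action of `Aut N` on the characters: `h ↦ h ∘ β⁻¹`. -/
def act (N : Type) [Group N] : MulAut N →* MulAut (X N) where
  toFun β :=
    { toFun := fun h => h.comp (β⁻¹ : MulAut N).toMonoidHom
      invFun := fun h => h.comp β.toMonoidHom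
      left_inv := fun h => by
        ext n
        simp [MulAut.inv_def]
      right_inv := fun h => by
        ext n
        simp [MulAut.inv_def]
      map_mul' := fun h h' => by
        ext n
        rfl }
  map_one' := by
    ext h n
    rfl
  map_mul' := fun β γ => by
    ext h n
    rfl

@[simp] theorem act_apply {N : Type} [Group N] (β : MulAut N) (h : X N) (n : N) :
    (act N β h) n = h (β⁻¹ n) := rfl

/-- `F(N) = Hom(N, C₂) ⋊ Aut N`. -/
abbrev F (N : Type) [Group N] : Type := X N ⋊[act N] MulAut N

/-- An isomorphism `N ≃* N'` induces `F N ≃* F N'`. -/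
theorem F_congr {N N' : Type} [Group N] [Group N'] (e : N ≃* N') : Nonempty (F N ≃* F N') := by
  refine ⟨SemidirectProduct.congr
    (φ₁ := act N) (φ₂ := act N')
    { toFun := fun h => h.comp e.symm.toMonoidHom
      invFun := fun h => h.comp e.toMonoidHom
      left_inv := fun h => by ext n; simp
      right_inv := fun h => by ext n; simp
      map_mul' := fun h h' => by ext n; rfl }
    (MulAut.congr e) ?_⟩
  intro β
  ext h n
  simp [MulAut.congr, MulAut.inv_def]

end QN43
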