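import Mathlib
import Pool.Agent.Helper43.QN.Stage
import Pool.Agent.Helper43.QN.F

/-!
# `DV W`, `tenPair`, `QSpec`
-/

set_option autoImplicit false
set_option linter.unusedSectionVars false

namespace QN43

/-- `V = Hom(W^15, F_2)`. -/
def DV (W : Type) [AddCommGroup W] : Type := (Fin 15 → W) →+ ZMod 2

instance (W : Type) [AddCommGroup W] : AddCommGroup (DV W) :=
  inferInstanceAs (AddCommGroup ((Fin 15 → W) →+ ZMod 2))

/-- Evaluation. -/
def DV.ev {W : Type} [AddCommGroup W] (φ : DV W) (w : Fin 15 → W) : ZMod 2 :=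
  (show (Fin 15 → W) →+ ZMod 2 from φ) w

/-- `(c φ)(w) = φ(c⁻¹ w)`. -/
instance {C W : Type} [Group C] [AddCommGroup W] [DistribMulAction C W] :
    DistribMulAction C (DV W) where
  smul c φ := AddMonoidHom.comp (show (Fin 15 → W) →+ ZMod 2 from φ)
    (DistribSMul.toAddMonoidHom (Fin 15 → W) c⁻¹)
  one_smul φ := by
    apply AddMonoidHom.ext
    intro w
    show DV.ev φ ((1 : C)⁻¹ • w) = DV.ev φ w
    simp
  mul_smul c d φ := by
    apply AddMonoidHom.ext
    intro w
    show DV.ev φ ((c * d)⁻¹ • w) = DV.ev φ (d⁻¹ • c⁻¹ • w)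
    rw [mul_inv_rev, mul_smul]
  smul_zero c := rfl
  smul_add c φ ψ := rfl

theorem DV.smul_ev {C W : Type} [Group C] [AddCommGroup W] [DistribMulAction C W] (c : C)
    (φ : DV W) (w : Fin 15 → W) : DV.ev (c • φ) w = DV.ev φ (c⁻¹ • w) := rfl

section

variable {J B E W U O : Type}
    [AddCommGroup J] [Module (ZMod 2) J] [Module (ZMod 2)ᵐᵒᵖ J] [IsCentralScalar (ZMod 2) J]
    [Ring B] [AddCommGroup E] [Module (A0 J) E] [AddCommGroup W] [Module (A0 J) W]
    [AddCommGroup U] [Module B U] [Group O] [DistribMulAction O W] [DistribMulAction O U]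
    {κ : A0 J →+* B} {inc : E →+ W} {jU : U →+ (W →+ ZMod 2)} {Φ : J ≃+ (Fin 15 → W)}
    {p : NN0 κ E →* O}

/-- The diagonal embedding `1 ⊗ (e, b)` as a pair. -/
def tenPair (e : (AddMonoid.End E)ˣ) (b : Bˣ) : (AddMonoid.End (Fin 15 → E))ˣ × (Mt B)ˣ :=
  ({ val := (AddMonoidHom.compLeft (e : AddMonoid.End E) (Fin 15))
     inv := (AddMonoidHom.compLeft ((e⁻¹ : (AddMonoid.End E)ˣ) : AddMonoid.End E) (Fin 15))
     val_inv := by
      apply AddMonoidHom.ext
      intro x
      funext i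
      have h := congrArg (fun g : AddMonoid.End E => g (x i)) (Units.mul_inv e)
      exact h
     inv_val := by
      apply AddMonoidHom.ext
      intro x
      funext i
      have h := congrArg (fun g : AddMonoid.End E => g (x i)) (Units.inv_mul e)
      exact h },
   Units.map (Matrix.scalar (Fin 15) : B →+* Mt B).toMonoidHom b)

/-- The properties of the quotient map `NN → O`. -/
structure QSpec (κ : A0 J →+* B) (E : Type) [AddCommGroup E] [Module (A0 J) E]
    (Φ : J ≃+ (Fin 15 → W)) (q : NN κ E →* O) : Prop where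
  surj : Function.Surjective q
  ker : ∀ g, q (sig κ E g) = 1
  phi : ∀ (n : NN κ E) (j j' : J),
    Rel κ E n.1 (Matrix.scalar (Fin 15) (TrivSqZeroExt.inr j))
      (Matrix.scalar (Fin 15) (TrivSqZeroExt.inr j')) → ∀ i, Φ j' i = q n • Φ j i
  rel : ∀ (n : NN κ E) (j : J), ∃ j' : J,
    Rel κ E n.1 (Matrix.scalar (Fin 15) (TrivSqZeroExt.inr j))
      (Matrix.scalar (Fin 15) (TrivSqZeroExt.inr j'))

end

end QN43
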