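import Mathlib
import Pool.Agent.Helper43.QN.QSpec

/-!
# Basic facts: `sig` is injective, `NN` is finite, `1 < |G1s|`
-/

set_option autoImplicit false
set_option linter.unusedSectionVars false

namespace QN43

section
variable {A : Type} [CommRing A] {B : Type} [Ring B] (κ : A →+* B)
    (E : Type) [AddCommGroup E] [Module A E]

theorem finite_NN [Finite B] [Finite E] : Finite (NN κ E) := by
  have h1 : Finite (AddMonoid.End (Fin 15 → E)) :=
    Finite.of_injective (fun f : AddMonoid.End (Fin 15 → E) => (f : (Fin 15 → E) → (Fin 15 → E)))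
      (fun f g hfg => DFunLike.coe_injective hfg)
  have h2 : Finite (Mt B) := inferInstanceAs (Finite (Fin 15 → Fin 15 → B))
  infer_instance

theorem kT_injective (hκ : Function.Injective κ) : Function.Injective (kT κ) := by
  intro m n h
  funext i j
  exact hκ (congrFun (congrFun h j) i)

theorem sig_injective (hκ : Function.Injective κ) : Function.Injective (sig κ E) := by
  intro g h hgh
  have h1 : kT κ ((g⁻¹ : (Mt A)ˣ) : Mt A) = kT κ ((h⁻¹ : (Mt A)ˣ) : Mt A) := by
    rw [← sig_snd κ E g, ← sig_snd κ E h, hgh]
  have h2 := kT_injective κ hκ h1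
  have h3 : g⁻¹ = h⁻¹ := Units.ext h2
  exact inv_injective h3

/-- `GL_15(A) ≃ G1s`. -/
noncomputable def sigEquiv (hκ : Function.Injective κ) : (Mt A)ˣ ≃* G1s κ E :=
  MonoidHom.ofInjective (sig_injective κ E hκ)

theorem one_lt_card_G1s' [Finite B] [Finite E] [Nontrivial A] (hκ : Function.Injective κ) :
    1 < Nat.card (G1s κ E) := by
  have := finite_NN κ E
  rw [Finite.one_lt_card_iff_nontrivial]
  let g : (Mt A)ˣ :=
    { val := Matrix.transvection 0 1 1
      inv := Matrix.transvection 0 1 (-1)
      val_inv := by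
        rw [Matrix.transvection_mul_transvection_same 0 1 (by decide)]
        simp
      inv_val := by
        rw [Matrix.transvection_mul_transvection_same 0 1 (by decide)]
        simp }
  have hg : g ≠ 1 := by
    intro h
    have h1 : (g : Mt A) 0 1 = (1 : Mt A) 0 1 := by rw [h]; rfl
    have h2 : (g : Mt A) 0 1 = 1 := by
      show Matrix.transvection (0 : Fin 15) 1 (1 : A) 0 1 = 1
      simp [Matrix.transvection]
    rw [h2, Matrix.one_apply_ne (by decide)] at h1
    exact one_ne_zero h1
  refine ⟨sigEquiv κ E hκ g, 1, fun h => hg ?_⟩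
  exact (MulEquiv.map_eq_one_iff (sigEquiv κ E hκ)).1 h

end

end QN43
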