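import Mathlib

/-!
# `Aut D₈ ≅ D₈` (frame for `S00834`, part 3)
-/

set_option autoImplicit false

namespace QN43

open DihedralGroup

/-- The dihedral group of order eight. -/
abbrev D8 : Type := DihedralGroup 4

/-- underlying function of the automorphism attached to `x`. -/
def autFun : D8 → D8 → D8
  | r _, r j => r j
  | r i, sr j => sr (j - i)
  | sr _, r j => r (-j)
  | sr i, sr j => sr (i - j)

theorem autFun_mul (x a b : D8) : autFun x (a * b) = autFun x a * autFun x b := by
  cases x <;> cases a <;> cases b <;>
    simp [autFun, DihedralGroup.r_mul_r, DihedralGroup.r_mul_sr, DihedralGroup.sr_mul_r,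
      DihedralGroup.sr_mul_sr] <;> ring

theorem autFun_comp (x y a : D8) : autFun (x * y) a = autFun x (autFun y a) := by
  cases x <;> cases y <;> cases a <;>
    simp [autFun, DihedralGroup.r_mul_r, DihedralGroup.r_mul_sr, DihedralGroup.sr_mul_r,
      DihedralGroup.sr_mul_sr] <;> ring

theorem autFun_one (a : D8) : autFun 1 a = a := by
  rw [DihedralGroup.one_def]
  cases a <;> simp [autFun]

/-- The homomorphism `D₈ → Aut D₈`. -/
def aut8 : D8 →* MulAut D8 where
  toFun x :=
    { toFun := autFun x
      invFun := autFun x⁻¹
      left_inv := fun a => by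
        rw [← autFun_comp, inv_mul_cancel, autFun_one]
      right_inv := fun a => by
        rw [← autFun_comp, mul_inv_cancel, autFun_one]
      map_mul' := autFun_mul x }
  map_one' := by
    ext a
    exact autFun_one a
  map_mul' x y := by
    ext a
    exact autFun_comp x y a

@[simp] theorem aut8_apply (x a : D8) : aut8 x a = autFun x a := rfl

theorem aut8_injective : Function.Injective aut8 := by
  intro x y h
  have h1 : autFun x (r 1) = autFun y (r 1) := DFunLike.congr_fun h (r 1)
  have h2 : autFun x (sr 0) = autFun y (sr 0) := DFunLike.congr_fun h (sr 0)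
  revert h1 h2
  revert x y
  decide

/-- every automorphism of `D₈` is determined by the images of `r 1` and `sr 0`. -/
theorem hom_ext8 (f g : D8 →* D8) (h1 : f (r 1) = g (r 1)) (h2 : f (sr 0) = g (sr 0)) : f = g := by
  have hr : ∀ i : ZMod 4, f (r i) = g (r i) := by
    intro i
    have : r i = (r 1 : D8) ^ i.val := by
      revert i; decide
    rw [this, map_pow, map_pow, h1]
  ext a
  cases a with
  | r i => exact hr i
  | sr i =>
    have : (sr i : D8) = sr 0 * r i := by
      rw [DihedralGroup.sr_mul_r, zero_add]
    rw [this, map_mul, map_mul, h2, hr]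

theorem aut8_surjective : Function.Surjective aut8 := by
  intro f
  -- the possible images of `r 1` and `sr 0`
  have key : ∀ a b : D8, a * a ≠ 1 → b * b = 1 → b ≠ 1 →
      b ≠ a * a → ∃ x : D8, autFun x (r 1) = a ∧ autFun x (sr 0) = b := by
    decide
  have hinj : Function.Injective f := f.injective
  obtain ⟨x, hx1, hx2⟩ := key (f (r 1)) (f (sr 0))
    (by
      intro h
      rw [← map_mul] at h
      have h3 := hinj (h.trans (map_one f).symm)
      revert h3; decide)
    (by rw [← map_mul]; exact (congrArg f (by decide)).trans (map_one f))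
    (by
      intro h
      have h3 := hinj (h.trans (map_one f).symm)
      revert h3; decide)
    (by
      intro h
      rw [← map_mul] at h
      have h3 := hinj h
      revert h3; decide)
  refine ⟨x, ?_⟩
  have h := hom_ext8 (aut8 x).toMonoidHom f.toMonoidHom hx1 hx2
  ext a
  exact DFunLike.congr_fun h a

/-- `Aut D₈ ≅ D₈`. -/
noncomputable def aut8Equiv : D8 ≃* MulAut D8 :=
  MulEquiv.ofBijective aut8 ⟨aut8_injective, aut8_surjective⟩

/-- The centre of `D₈`: an element commuting with everything is `1` or `r 2`. -/
theorem center8 (a : D8) (h : ∀ b : D8, a * b = b * a) : a = 1 ∨ a = r 2 := by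
  have h1 := h (r 1)
  have h2 := h (sr 0)
  revert h1 h2
  revert a
  decide

end QN43
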