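import Mathlib
import Pool.Agent.Helper43.QN.F
import Pool.Agent.Helper43.QN.AutD8

/-!
# `Aut (D₈ × N) ≅ D₈ × F(N)` for centreless `N` (frame for `S00834`, part 4)
-/

set_option autoImplicit false

namespace QN43

open DihedralGroup

/-- The central embedding `C₂ → D₈`. -/
def zz : C2 →* D8 where
  toFun e := r (2 * (ZMod.castHom (show 2 ∣ 2 by norm_num) (ZMod 2) (Multiplicative.toAdd e)).val)
  map_one' := by decide
  map_mul' := by decide

theorem zz_comm (e : C2) (d : D8) : zz e * d = d * zz e := by
  revert d e; decide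

theorem zz_inj : Function.Injective zz := by
  intro a b; revert a b; decide

theorem autFun_zz (x : D8) (e : C2) : autFun x (zz e) = zz e := by
  revert x e; decide

/-- every element of `D₈` commuting with everything is in the image of `zz`. -/
theorem zz_surj (a : D8) (h : ∀ b : D8, a * b = b * a) : ∃ e : C2, zz e = a := by
  rcases center8 a h with rfl | rfl
  · exact ⟨1, map_one _⟩
  · exact ⟨Multiplicative.ofAdd 1, by decide⟩

variable {N : Type} [Group N]

/-- The homomorphism `D₈ × F(N) → Aut (D₈ × N)`, on elements. -/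
def psiFun (x : D8) (h : X N) (β : MulAut N) (p : D8 × N) : D8 × N :=
  (autFun x p.1 * zz (h (β p.2)), β p.2)

theorem psiFun_mul (x : D8) (h : X N) (β : MulAut N) (p q : D8 × N) :
    psiFun x h β (p * q) = psiFun x h β p * psiFun x h β q := by
  unfold psiFun
  ext
  · simp only [Prod.fst_mul, Prod.snd_mul, map_mul, autFun_mul, Prod.mk_mul_mk]
    rw [mul_assoc (autFun x p.1), mul_assoc (autFun x p.1), ← mul_assoc (zz (h (β p.2))),
      zz_comm (h (β p.2)) (autFun x q.1), mul_assoc (autFun x q.1)]
  · simp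

theorem psiFun_comp (x x' : D8) (h h' : X N) (β β' : MulAut N) (p : D8 × N) :
    psiFun x h β (psiFun x' h' β' p) = psiFun (x * x') (h * act N β h') (β * β') p := by
  unfold psiFun
  ext
  · simp only [autFun_mul, autFun_zz, autFun_comp, MonoidHom.mul_apply, act_apply, map_mul,
      MulAut.mul_apply, MulAut.inv_apply_self]
    rw [mul_assoc, zz_comm (h' (β' p.2))]
  · rfl

theorem psiFun_one (p : D8 × N) : psiFun 1 (1 : X N) (1 : MulAut N) p = p := by
  unfold psiFun
  ext <;> simp [autFun_one]

/-- The homomorphism `D₈ × F(N) → Aut (D₈ × N)`. -/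
def psi (N : Type) [Group N] : D8 × F N →* MulAut (D8 × N) where
  toFun y :=
    { toFun := psiFun y.1 y.2.left y.2.right
      invFun := psiFun y⁻¹.1 y⁻¹.2.left y⁻¹.2.right
      left_inv := fun p => by
        rw [psiFun_comp]
        have : y⁻¹ * y = 1 := inv_mul_cancel y
        have h1 : y⁻¹.1 * y.1 = 1 := congrArg Prod.fst this
        have h2 : y⁻¹.2.left * act N y⁻¹.2.right y.2.left = 1 :=
          congrArg (fun z : D8 × F N => z.2.left) this
        have h3 : y⁻¹.2.right * y.2.right = 1 :=
          congrArg (fun z : D8 × F N => z.2.right) this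
        rw [h1, h2, h3, psiFun_one]
      right_inv := fun p => by
        rw [psiFun_comp]
        have : y * y⁻¹ = 1 := mul_inv_cancel y
        have h1 : y.1 * y⁻¹.1 = 1 := congrArg Prod.fst this
        have h2 : y.2.left * act N y.2.right y⁻¹.2.left = 1 :=
          congrArg (fun z : D8 × F N => z.2.left) this
        have h3 : y.2.right * y⁻¹.2.right = 1 :=
          congrArg (fun z : D8 × F N => z.2.right) this
        rw [h1, h2, h3, psiFun_one]
      map_mul' := psiFun_mul _ _ _ }
  map_one' := by
    ext p <;> simp [psiFun, autFun_one]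
  map_mul' y z := by
    apply MulEquiv.ext
    intro p
    exact (psiFun_comp _ _ _ _ _ _ p).symm

theorem psi_injective : Function.Injective (psi N) := by
  intro y z h
  have h1 : ∀ p, psiFun y.1 y.2.left y.2.right p = psiFun z.1 z.2.left z.2.right p :=
    fun p => DFunLike.congr_fun h p
  have hx : y.1 = z.1 := by
    apply aut8_injective
    ext d
    have := congrArg Prod.fst (h1 (d, 1))
    simpa [psiFun] using this
  have hb : y.2.right = z.2.right := by
    ext n
    exact congrArg Prod.snd (h1 (1, n))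
  have hl : y.2.left = z.2.left := by
    ext n
    obtain ⟨m, rfl⟩ := y.2.right.surjective n
    have h2 := congrArg Prod.fst (h1 (1, m))
    simp only [psiFun, ← hb, hx] at h2
    exact zz_inj (mul_left_cancel h2)
  exact Prod.ext hx (SemidirectProduct.ext hl hb)

/-- The image of `D₈` under an automorphism of `D₈ × N` is in `D₈` if `N` is centreless. -/
theorem snd_eq_one (hN : ∀ z : N, (∀ n : N, z * n = n * z) → z = 1)
    (φ : MulAut (D8 × N)) (d : D8) : (φ (d, 1)).2 = 1 := by
  classical
  -- the homomorphism `D₈ → N`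
  let f : D8 →* N := (MonoidHom.snd D8 N).comp ((φ.toMonoidHom).comp (MonoidHom.inl D8 N))
  have hf : ∀ d, f d = (φ (d, 1)).2 := fun d => rfl
  -- central elements of the range are trivial
  have hc : ∀ a : D8, (∀ b : D8, f a * f b = f b * f a) → f a = 1 := by
    intro a ha
    apply hN
    intro n
    obtain ⟨⟨b, m⟩, hb⟩ := φ.surjective ((1 : D8), n)
    have hbm : (b, m) = (b, 1) * ((1 : D8), m) := by simp
    have hn : n = f b * (φ (1, m)).2 := by
      have := congrArg Prod.snd hb
      rw [hbm, map_mul] at this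
      exact this.symm
    have hcm : f a * (φ (1, m)).2 = (φ (1, m)).2 * f a := by
      have h1 : ((a, 1) : D8 × N) * (1, m) = (1, m) * (a, 1) := by simp
      have h2 := congrArg φ h1
      rw [map_mul, map_mul] at h2
      exact congrArg Prod.snd h2
    rw [hn, ← mul_assoc, ha b, mul_assoc, hcm, mul_assoc]
  -- `f` kills `r 2`, then everything
  have h2 : f (r 2) = 1 := by
    apply hc
    intro b
    rw [← map_mul, ← map_mul]
    congr 1
    revert b; decide
  have hcomm : ∀ a b : D8, f a * f b = f b * f a := by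
    intro a b
    have h3 : ∃ e : ZMod 2, a * b = b * a * (r 2 : D8) ^ e.val := by
      revert a b; decide
    obtain ⟨e, he⟩ := h3
    rw [← map_mul, he, map_mul, map_pow, h2, one_pow, mul_one, map_mul]
  exact hc d (fun b => hcomm d b)

theorem psi_surjective (hN : ∀ z : N, (∀ n : N, z * n = n * z) → z = 1) :
    Function.Surjective (psi N) := by
  intro φ
  have hs := snd_eq_one hN φ
  have hs' := snd_eq_one hN φ⁻¹
  -- the automorphism of `D₈`
  let a0 : D8 →* D8 := (MonoidHom.fst D8 N).comp ((φ.toMonoidHom).comp (MonoidHom.inl D8 N))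
  let a1 : D8 →* D8 :=
    (MonoidHom.fst D8 N).comp (((φ⁻¹ : MulAut (D8 × N)).toMonoidHom).comp (MonoidHom.inl D8 N))
  have ha0 : ∀ d, φ (d, 1) = (a0 d, 1) := fun d => Prod.ext rfl (hs d)
  have ha1 : ∀ d, (φ⁻¹ : MulAut (D8 × N)) (d, 1) = (a1 d, 1) := fun d => Prod.ext rfl (hs' d)
  let α : MulAut D8 :=
    { toFun := a0
      invFun := a1
      left_inv := fun d => by
        have h1 : (φ⁻¹ : MulAut (D8 × N)) (φ (d, 1)) = (d, 1) := MulAut.inv_apply_self _ _ _
        rw [ha0, ha1] at h1
        exact congrArg Prod.fst h1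
      right_inv := fun d => by
        have h1 : φ ((φ⁻¹ : MulAut (D8 × N)) (d, 1)) = (d, 1) := MulAut.apply_inv_self _ _ _
        rw [ha1, ha0] at h1
        exact congrArg Prod.fst h1
      map_mul' := a0.map_mul }
  obtain ⟨x, hx⟩ := aut8_surjective α
  have hxa : ∀ d, autFun x d = a0 d := fun d => DFunLike.congr_fun hx d
  -- the automorphism of `N`
  let b0 : N →* N := (MonoidHom.snd D8 N).comp ((φ.toMonoidHom).comp (MonoidHom.inr D8 N))
  let b1 : N →* N :=
    (MonoidHom.snd D8 N).comp (((φ⁻¹ : MulAut (D8 × N)).toMonoidHom).comp (MonoidHom.inr D8 N))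
  let c0 : N →* D8 := (MonoidHom.fst D8 N).comp ((φ.toMonoidHom).comp (MonoidHom.inr D8 N))
  have hb : ∀ n, φ (1, n) = (c0 n, b0 n) := fun n => rfl
  have hb' : ∀ n, (φ⁻¹ : MulAut (D8 × N)) (1, n) =
      (((φ⁻¹ : MulAut (D8 × N)) (1, n)).1, b1 n) := fun n => rfl
  have hsp : ∀ (ψ : MulAut (D8 × N)) (h : ∀ d, (ψ (d, 1)).2 = 1) (d : D8) (n : N),
      (ψ (d, n)).2 = (ψ (1, n)).2 := by
    intro ψ h d n
    have : (d, n) = (d, 1) * ((1 : D8), n) := by simp
    rw [this, map_mul, Prod.snd_mul, h, one_mul]
  let β : MulAut N :=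
    { toFun := b0
      invFun := b1
      left_inv := fun n => by
        have h1 : (φ⁻¹ : MulAut (D8 × N)) (φ (1, n)) = (1, n) := MulAut.inv_apply_self _ _ _
        rw [hb] at h1
        have h2 := congrArg Prod.snd h1
        rw [hsp φ⁻¹ hs'] at h2
        exact h2
      right_inv := fun n => by
        have h1 : φ ((φ⁻¹ : MulAut (D8 × N)) (1, n)) = (1, n) := MulAut.apply_inv_self _ _ _
        rw [hb'] at h1
        have h2 := congrArg Prod.snd h1
        rw [hsp φ hs] at h2
        exact h2
      map_mul' := b0.map_mul }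
  -- the central part
  have hcen : ∀ n, ∃ e : C2, zz e = c0 n := by
    intro n
    apply zz_surj
    intro b
    obtain ⟨d, rfl⟩ := α.surjective b
    have h1 : ((1 : D8), n) * (d, 1) = (d, 1) * (1, n) := by simp
    have h2 := congrArg (fun t => (φ t).1) h1
    simp only [map_mul] at h2
    rw [hb, ha0] at h2
    exact h2
  choose e he using hcen
  let h0 : N →* C2 :=
    { toFun := e
      map_one' := zz_inj (by rw [he, map_one, map_one])
      map_mul' := fun m n => zz_inj (by rw [he, map_mul, map_mul, he, he]) }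
  have hh0 : ∀ n, zz (h0 n) = c0 n := he
  refine ⟨(x, ⟨act N β h0, β⟩), ?_⟩
  apply MulEquiv.ext
  rintro ⟨d, n⟩
  have h1 : (d, n) = (d, 1) * ((1 : D8), n) := by simp
  have h2 : φ (d, n) = (a0 d * c0 n, b0 n) := by
    rw [h1, map_mul, ha0, hb]
    simp
  rw [h2]
  change psiFun x (act N β h0) β (d, n) = _
  unfold psiFun
  simp only [act_apply, MulAut.inv_apply_self, hh0, hxa]
  rfl

/-- `Aut (D₈ × N) ≅ D₈ × F(N)` for centreless `N`. -/
theorem autProd (hN : Subgroup.center N = ⊥) : Nonempty (MulAut (D8 × N) ≃* D8 × F N) := by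
  have hN' : ∀ z : N, (∀ n : N, z * n = n * z) → z = 1 := by
    intro z hz
    have : z ∈ Subgroup.center N := Subgroup.mem_center_iff.mpr (fun g => (hz g).symm)
    rw [hN] at this
    exact Subgroup.mem_bot.mp this
  exact ⟨(MulEquiv.ofBijective (psi N) ⟨psi_injective, psi_surjective hN'⟩).symm⟩

end QN43
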