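import Mathlib

/-!
# Automorphism towers and isomorphisms (frame for `S00834`, part 1)
-/

set_option autoImplicit false

namespace QN43

/-- One step of the automorphism tower. -/
abbrev step (H : GrpCat.{0}) : GrpCat.{0} := GrpCat.of (MulAut H)

theorem step_congr {H K : Type} [Group H] [Group K] (e : H ≃* K) :
    Nonempty (MulAut H ≃* MulAut K) := ⟨MulAut.congr e⟩

theorem iter_congr {H K : GrpCat.{0}} (e : H ≃* K) (i : ℕ) :
    Nonempty ((fun H : GrpCat.{0} => GrpCat.of (MulAut H))^[i] H ≃*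
      (fun H : GrpCat.{0} => GrpCat.of (MulAut H))^[i] K) := by
  induction i generalizing H K with
  | zero => exact ⟨e⟩
  | succ i ih =>
    rw [Function.iterate_succ_apply, Function.iterate_succ_apply]
    exact ih (H := GrpCat.of (MulAut H)) (K := GrpCat.of (MulAut K)) (MulAut.congr e)

/-- If `G (i+1)` is isomorphic to `Aut (G i)` for all `i`, the tower of `G 0` is `G`. -/
theorem tower_iso (G : ℕ → Type) [∀ i, Group (G i)]
    (h : ∀ i, Nonempty (MulAut (G i) ≃* G (i + 1))) (i : ℕ) :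
    Nonempty ((fun H : GrpCat.{0} => GrpCat.of (MulAut H))^[i] (GrpCat.of (G 0)) ≃* G i) := by
  induction i generalizing G with
  | zero => exact ⟨MulEquiv.refl _⟩
  | succ i ih =>
    rw [Function.iterate_succ_apply]
    obtain ⟨e0⟩ := h 0
    obtain ⟨e1⟩ := iter_congr (H := GrpCat.of (MulAut (GrpCat.of (G 0)))) (K := GrpCat.of (G 1)) e0 i
    obtain ⟨e2⟩ := ih (fun j => G (j + 1)) (fun j => h (j + 1))
    exact ⟨e1.trans e2⟩

/-- The frame: a sequence of groups `G i` with `Aut (G i) ≃* G (i+1)`, `G 0` finite, and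
unbounded orders refutes the existence of a bounding function. -/
theorem not_bounded (G : ℕ → Type) [∀ i, Group (G i)] [Finite (G 0)]
    (h : ∀ i, Nonempty (MulAut (G i) ≃* G (i + 1)))
    (hub : ∀ B : ℕ, ∃ i, B < Nat.card (G i)) :
    ¬ (∃ f : ℕ → ℕ, ∀ (G : Type) [Group G] [Finite G], ∀ i : ℕ,
      Nat.card ((fun H : GrpCat => GrpCat.of (MulAut H))^[i] (GrpCat.of G)) ≤ f (Nat.card G)) := by
  rintro ⟨f, hf⟩
  obtain ⟨i, hi⟩ := hub (f (Nat.card (G 0)))
  have h1 := hf (G 0) i
  obtain ⟨e⟩ := tower_iso G h i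
  rw [Nat.card_congr e.toEquiv] at h1
  omega

end QN43
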