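import Mathlib
import Pool.Agent.Helper43.QN.Tower
import Pool.Agent.Helper43.QN.AutProd

/-!
# The frame for `S00834`: an unbounded `F`-tower of centreless finite groups refutes the bound
-/

set_option autoImplicit false

namespace QN43

/-- **Frame.** Let `N 0, N 1, ...` be centreless groups, `N 0` finite, with `N (i+1) ≅ F (N i)`,
and unbounded orders.  Then no function bounds the orders in automorphism towers. -/
theorem frame (N : ℕ → Type) [∀ i, Group (N i)] [Finite (N 0)]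
    (hc : ∀ i, Subgroup.center (N i) = ⊥)
    (hF : ∀ i, Nonempty (F (N i) ≃* N (i + 1)))
    (hub : ∀ B : ℕ, ∃ i, B < Nat.card (N i)) :
    ¬ (∃ f : ℕ → ℕ, ∀ (G : Type) [Group G] [Finite G], ∀ i : ℕ,
      Nat.card ((fun H : GrpCat => GrpCat.of (MulAut H))^[i] (GrpCat.of G)) ≤ f (Nat.card G)) := by
  refine not_bounded (fun i => D8 × N i) ?_ ?_
  · intro i
    obtain ⟨e⟩ := autProd (N := N i) (hc i)
    obtain ⟨e1⟩ := hF i
    exact ⟨e.trans ((MulEquiv.refl D8).prodCongr e1)⟩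
  · intro B
    obtain ⟨i, hi⟩ := hub B
    refine ⟨i, lt_of_lt_of_le hi ?_⟩
    rw [Nat.card_prod]
    exact Nat.le_mul_of_pos_left _ Nat.card_pos

/-- Two steps of the tower of `D₈ × N`. -/
theorem twoSteps (N : GrpCat.{0}) (hc : Subgroup.center N = ⊥) (hc' : Subgroup.center (F N) = ⊥) :
    Nonempty (MulAut (MulAut (D8 × N)) ≃* D8 × F (F N)) := by
  obtain ⟨e⟩ := autProd (N := N) hc
  obtain ⟨e1⟩ := autProd (N := F N) hc'
  exact ⟨(MulAut.congr e).trans e1⟩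

/-- **Frame, in the form of a self-reproducing predicate.** -/
theorem frameP (P : GrpCat.{0} → Prop) (hfin : ∀ N, P N → Finite N)
    (hc : ∀ N, P N → Subgroup.center N = ⊥)
    (hc' : ∀ N, P N → Subgroup.center (F N) = ⊥)
    (hstep : ∀ N, P N → ∃ N₂ : GrpCat.{0}, P N₂ ∧ Nonempty (F (F N) ≃* N₂) ∧
      Nat.card N < Nat.card N₂)
    (h0 : ∃ N, P N) :
    ¬ (∃ f : ℕ → ℕ, ∀ (G : Type) [Group G] [Finite G], ∀ i : ℕ,
      Nat.card ((fun H : GrpCat => GrpCat.of (MulAut H))^[i] (GrpCat.of G)) ≤ f (Nat.card G)) := by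
  rintro ⟨f, hf⟩
  obtain ⟨N0, hN0⟩ := h0
  have key : ∀ i : ℕ, ∃ N : GrpCat.{0}, P N ∧ i ≤ Nat.card N ∧
      Nonempty (((fun H : GrpCat.{0} => GrpCat.of (MulAut H))^[2 * i]
        (GrpCat.of (D8 × N0)) : GrpCat.{0}) ≃* D8 × N) := by
    intro i
    induction i with
    | zero => exact ⟨N0, hN0, Nat.zero_le _, ⟨MulEquiv.refl _⟩⟩
    | succ i ih =>
      obtain ⟨N, hN, hi, ⟨e⟩⟩ := ih
      obtain ⟨N₂, hN₂, ⟨e2⟩, hlt⟩ := hstep N hN
      refine ⟨N₂, hN₂, by omega, ?_⟩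
      obtain ⟨e3⟩ := twoSteps N (hc N hN) (hc' N hN)
      have h1 : 2 * (i + 1) = (2 * i + 1) + 1 := by ring
      rw [h1, Function.iterate_succ_apply', Function.iterate_succ_apply']
      exact ⟨((MulAut.congr (MulAut.congr e)).trans e3).trans
        ((MulEquiv.refl D8).prodCongr e2)⟩
  have hfinN0 : Finite N0 := hfin N0 hN0
  obtain ⟨N, hN, hi, ⟨e⟩⟩ := key (f (Nat.card (D8 × N0)) + 1)
  have h1 := hf (D8 × N0) (2 * (f (Nat.card (D8 × N0)) + 1))
  rw [Nat.card_congr e.toEquiv, Nat.card_prod] at h1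
  have h2 : 0 < Nat.card D8 := Nat.card_pos
  have h3 : Nat.card N ≤ Nat.card D8 * Nat.card N := Nat.le_mul_of_pos_left _ h2
  omega

end QN43
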