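import Mathlib
import Pool.Agent.Helper43.QN.QSpec
import Pool.Agent.Helper42.QH.NNSteps
import Pool.Agent.Helper29.QE.Odd
import Pool.Agent.Helper29.QE.Even
import Pool.Agent.Helper29.QE.EvenF
import Pool.Agent.Helper27.QP.OddEven

/-!
# The steps of the tower: statements
-/

set_option autoImplicit false
set_option linter.unusedSectionVars false

namespace QN43

section

variable {J B E W U O : Type}
    [AddCommGroup J] [Module (ZMod 2) J] [Module (ZMod 2)ᵐᵒᵖ J] [IsCentralScalar (ZMod 2) J]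
    [Ring B] [AddCommGroup E] [Module (A0 J) E] [AddCommGroup W] [Module (A0 J) W]
    [AddCommGroup U] [Module B U] [Group O] [DistribMulAction O W] [DistribMulAction O U]
    {κ : A0 J →+* B} {inc : E →+ W} {jU : U →+ (W →+ ZMod 2)} {Φ : J ≃+ (Fin 15 → W)}
    {p : NN0 κ E →* O}

/-- (N1) the quotient map exists. -/
theorem exists_qN (h : GFacts κ inc jU Φ p) : ∃ q : NN κ E →* O, QSpec κ E Φ q := by
  exact QS42.exists_qN h

/-- (N2) `NN` is perfect, `GL_15(A0)` is normal in it, of index prime to `151`, and its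
centraliser is commutative. -/
theorem NN_perf (h : GFacts κ inc jU Φ p) : commutator (NN κ E) = ⊤ := by
  exact QS42.NN_perf h

theorem G1s_normal (h : GFacts κ inc jU Φ p) : (G1s κ E).Normal := by
  exact QS42.G1s_normal h

theorem NN_pow (h : GFacts κ inc jU Φ p) (n : NN κ E) (hn : n ^ 151 = 1) : n ∈ G1s κ E := by
  exact QS42.NN_pow h n hn

theorem NN_comm (h : GFacts κ inc jU Φ p) (n m : NN κ E)
    (hn : ∀ g, n * sig κ E g = sig κ E g * n) (hm : ∀ g, m * sig κ E g = sig κ E g * m) :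
    n * m = m * n := by
  exact QS42.NN_comm h n m hn hm

/-- (O1) the group `N' = GG G1s C Y` is centreless. -/
theorem odd_center (h : GFacts κ inc jU Φ p) {C Y : Type} [Group C] [AddCommGroup Y] [Module B Y]
    [DistribMulAction C Y] [SMulCommClass C B Y] (hC : Odd B C Y) :
    Subgroup.center (GG (G1s κ E) C Y) = ⊥ := by
  exact QP27.odd_center h hC

/-- (O2) `F(N') = V ⋊ C'`. -/
theorem F_odd (h : GFacts κ inc jU Φ p) {q : NN κ E →* O} (hq : QSpec κ E Φ q)
    {C Y : Type} [Group C] [AddCommGroup Y] [Module B Y]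
    [DistribMulAction C Y] [SMulCommClass C B Y] (hC : Odd B C Y)
    [DistribMulAction (GG (⊤ : Subgroup (NN κ E)) C Y) W]
    (hW : ∀ (g : GG (⊤ : Subgroup (NN κ E)) C Y) (w : W), g • w = q g.c.1.1 • w) :
    Nonempty (F (GG (G1s κ E) C Y) ≃* SD (DV W) (GG (⊤ : Subgroup (NN κ E)) C Y)) := by
  exact QP27.F_odd h hq hC hW

/-- (O3) odd ⇒ even. -/
theorem even_of_odd (h : GFacts κ inc jU Φ p) {q : NN κ E →* O} (hq : QSpec κ E Φ q)
    {C Y : Type} [Group C] [AddCommGroup Y] [Module B Y]
    [DistribMulAction C Y] [SMulCommClass C B Y] (hC : Odd B C Y)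
    [DistribMulAction (GG (⊤ : Subgroup (NN κ E)) C Y) U]
    (q' : GG (⊤ : Subgroup (NN κ E)) C Y →* O) (hq' : ∀ g, q' g = q g.c.1.1)
    (hU : ∀ (g : GG (⊤ : Subgroup (NN κ E)) C Y) (u : U), g • u = q' g • u) :
    Even U q' := by
  exact QP27.even_of_odd h hq hC q' hq' hU

/-- (E1) `V ⋊ C` is centreless. -/
theorem even_center (h : GFacts κ inc jU Φ p) {C : Type} [Group C] (q : C →* O)
    [DistribMulAction C W] [DistribMulAction C U] (hW : ∀ (c : C) (w : W), c • w = q c • w)
    (hU : ∀ (c : C) (u : U), c • u = q c • u) (hC : Even U q) :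
    Subgroup.center (SD (DV W) C) = ⊥ := by
  exact QE29.even_center h q hW hU hC

/-- (E2) even ⇒ odd. -/
theorem odd_of_even (h : GFacts κ inc jU Φ p) {C : Type} [Group C] (q : C →* O)
    [DistribMulAction C U] [SMulCommClass C B U]
    (hU : ∀ (c : C) (u : U), c • u = q c • u) (hC : Even U q) :
    Odd B C (Z1 C U) := by
  exact QE29.odd_of_even h q hU hC

/-- (E3) `F(V ⋊ C) = N'` for the stage `(C, Z1 C U)`. -/
theorem F_even (h : GFacts κ inc jU Φ p) {C : Type} [Group C] (q : C →* O)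
    [DistribMulAction C W] [DistribMulAction C U] [SMulCommClass C B U]
    (hW : ∀ (c : C) (w : W), c • w = q c • w)
    (hU : ∀ (c : C) (u : U), c • u = q c • u) (hC : Even U q) :
    Nonempty (F (SD (DV W) C) ≃* GG (G1s κ E) C (Z1 C U)) := by
  exact QE29.F_even h q hW hU hC

end

end QN43
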