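import Mathlib
import Pool.Agent.Helper43.QN.Steps
import Pool.Agent.Helper43.QN.Basic
import Pool.Agent.Helper43.QN.Frame

/-!
# The tower: `S00834` from the linear data, the base stage and the steps
-/

set_option autoImplicit false
set_option linter.unusedSectionVars false

namespace QN43

theorem center_congr {G H : Type} [Group G] [Group H] (e : G ≃* H)
    (h : Subgroup.center H = ⊥) : Subgroup.center G = ⊥ := by
  rw [eq_bot_iff]
  intro g hg
  rw [Subgroup.mem_bot]
  have h1 : e g ∈ Subgroup.center H := by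
    rw [Subgroup.mem_center_iff]
    intro x
    have h2 := Subgroup.mem_center_iff.1 hg (e.symm x)
    have h3 := congrArg e h2
    simpa using h3
  rw [h, Subgroup.mem_bot] at h1
  exact (MulEquiv.map_eq_one_iff e).1 h1

section

variable {J B E W U O : Type}
    [AddCommGroup J] [Module (ZMod 2) J] [Module (ZMod 2)ᵐᵒᵖ J] [IsCentralScalar (ZMod 2) J]
    [Ring B] [AddCommGroup E] [Module (A0 J) E] [AddCommGroup W] [Module (A0 J) W]
    [AddCommGroup U] [Module B U] [Group O] [DistribMulAction O W] [DistribMulAction O U]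
    {κ : A0 J →+* B} {inc : E →+ W} {jU : U →+ (W →+ ZMod 2)} {Φ : J ≃+ (Fin 15 → W)}
    {p : NN0 κ E →* O}

/-- One double step of the tower. -/
theorem double_step (h : GFacts κ inc jU Φ p) {q : NN κ E →* O} (hq : QSpec κ E Φ q)
    {C Y : Type} [Group C] [AddCommGroup Y] [Module B Y]
    [DistribMulAction C Y] [SMulCommClass C B Y] (hC : Odd B C Y) :
    Subgroup.center (F (GG (G1s κ E) C Y)) = ⊥ ∧
    ∃ (Y' : Type) (_ : AddCommGroup Y') (_ : Module B Y')
      (_ : DistribMulAction (GG (⊤ : Subgroup (NN κ E)) C Y) Y')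
      (_ : SMulCommClass (GG (⊤ : Subgroup (NN κ E)) C Y) B Y'),
      Odd B (GG (⊤ : Subgroup (NN κ E)) C Y) Y' ∧
      Nonempty (F (F (GG (G1s κ E) C Y)) ≃*
        GG (G1s κ E) (GG (⊤ : Subgroup (NN κ E)) C Y) Y') := by
  let C' : Type := GG (⊤ : Subgroup (NN κ E)) C Y
  let q' : GG (⊤ : Subgroup (NN κ E)) C Y →* O :=
    { toFun := fun g => q g.c.1.1
      map_one' := map_one q
      map_mul' := fun g g' => map_mul q g.c.1.1 g'.c.1.1 }
  let iW : DistribMulAction (GG (⊤ : Subgroup (NN κ E)) C Y) W := DistribMulAction.compHom W q'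
  let iU : DistribMulAction (GG (⊤ : Subgroup (NN κ E)) C Y) U := DistribMulAction.compHom U q'
  have hW : ∀ (g : GG (⊤ : Subgroup (NN κ E)) C Y) (w : W), g • w = q' g • w := fun _ _ => rfl
  have hU : ∀ (g : GG (⊤ : Subgroup (NN κ E)) C Y) (u : U), g • u = q' g • u := fun _ _ => rfl
  have : SMulCommClass (GG (⊤ : Subgroup (NN κ E)) C Y) B U :=
    ⟨fun g b u => h.commU (q' g) b u⟩
  have hE : Even U q' := even_of_odd h hq hC q' (fun _ => rfl) hU
  obtain ⟨e1⟩ := F_odd h hq hC (fun g w => rfl)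
  obtain ⟨e2⟩ := F_even h q' hW hU hE
  refine ⟨center_congr e1 (even_center h q' hW hU hE), Z1 (GG (⊤ : Subgroup (NN κ E)) C Y) U,
    inferInstance, inferInstance, inferInstance, inferInstance, odd_of_even h q' hU hE, ?_⟩
  obtain ⟨e3⟩ := F_congr e1
  exact ⟨e3.trans e2⟩

theorem one_lt_card_G1s (h : GFacts κ inc jU Φ p) : 1 < Nat.card (G1s κ E) := by
  have := h.finB
  have := h.finE
  exact one_lt_card_G1s' κ E h.kapInj

/-- **The tower is unbounded.** -/
theorem main_of (h : GFacts κ inc jU Φ p)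
    (hbase : ∃ (C Y : Type) (_ : Group C) (_ : AddCommGroup Y) (_ : Module B Y)
      (_ : DistribMulAction C Y) (_ : SMulCommClass C B Y), Odd B C Y) :
    ¬ (∃ f : ℕ → ℕ, ∀ (G : Type) [Group G] [Finite G], ∀ i : ℕ,
      Nat.card ((fun H : GrpCat => GrpCat.of (MulAut H))^[i] (GrpCat.of G)) ≤ f (Nat.card G)) := by
  obtain ⟨q, hq⟩ := exists_qN h
  have := h.finJ
  have := h.finB
  have := h.finE
  have : Finite (NN κ E) := finite_NN κ E
  refine frameP (fun N => ∃ (C Y : Type) (_ : Group C) (_ : AddCommGroup Y) (_ : Module B Y)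
      (_ : DistribMulAction C Y) (_ : SMulCommClass C B Y), Odd B C Y ∧
        Nonempty (N ≃* GG (G1s κ E) C Y)) ?_ ?_ ?_ ?_ ?_
  · rintro N ⟨C, Y, _, _, _, _, _, hC, ⟨e⟩⟩
    have := hC.finC
    have := hC.finY
    exact Finite.of_equiv _ e.symm.toEquiv
  · rintro N ⟨C, Y, _, _, _, _, _, hC, ⟨e⟩⟩
    exact center_congr e (odd_center h hC)
  · rintro N ⟨C, Y, _, _, _, _, _, hC, ⟨e⟩⟩
    obtain ⟨e1⟩ := F_congr e
    exact center_congr e1 (double_step h hq hC).1
  · rintro N ⟨C, Y, _, _, _, _, _, hC, ⟨e⟩⟩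
    have := hC.finC
    have := hC.finY
    obtain ⟨Y', _, _, _, _, hC', ⟨e2⟩⟩ := (double_step h hq hC).2
    have := hC'.finY
    obtain ⟨e1⟩ := F_congr e
    obtain ⟨e3⟩ := F_congr e1
    refine ⟨GrpCat.of (GG (G1s κ E) (GG (⊤ : Subgroup (NN κ E)) C Y) Y'),
      ⟨_, Y', _, _, _, _, _, hC', ⟨MulEquiv.refl _⟩⟩, ⟨e3.trans e2⟩, ?_⟩
    show Nat.card N < Nat.card (GG (G1s κ E) (GG (⊤ : Subgroup (NN κ E)) C Y) Y')
    rw [Nat.card_congr e.toEquiv]
    rw [SD.card_eq, SD.card_eq, Nat.card_prod, Nat.card_prod, SD.card_eq, Nat.card_prod]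
    have h1 := one_lt_card_G1s h
    have h2 : Nat.card (G1s κ E) ≤ Nat.card (⊤ : Subgroup (NN κ E)) :=
      Nat.card_le_card_of_injective (Subgroup.inclusion le_top)
        (Subgroup.inclusion_injective le_top)
    have h3 : 0 < Nat.card (WW E Y) := Nat.card_pos
    have h4 : 0 < Nat.card C := Nat.card_pos
    have h8 : 0 < Nat.card (⊤ : Subgroup (NN κ E)) := Nat.card_pos
    have h5 : 0 < Nat.card (WW E Y') := Nat.card_pos
    set a := Nat.card (WW E Y)
    set b := Nat.card (G1s κ E)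
    set c := Nat.card C
    set t := Nat.card (⊤ : Subgroup (NN κ E))
    set w := Nat.card (WW E Y')
    have h6 : a * (b * c) ≤ a * (t * c) := by gcongr
    have h7 : 0 < a * (t * c) := by positivity
    calc a * (b * c) ≤ a * (t * c) := h6
      _ < 1 * (b * (a * (t * c))) := by nlinarith
      _ ≤ w * (b * (a * (t * c))) := by gcongr; exact h5
  · obtain ⟨C, Y, _, _, _, _, _, hC⟩ := hbase
    exact ⟨GrpCat.of (GG (G1s κ E) C Y), C, Y, _, _, _, _, _, hC, ⟨MulEquiv.refl _⟩⟩

end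

end QN43
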