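import Mathlib
import Pool.Agent.Helper43.QN.Basic
import Pool.Agent.Helper40.QG.More
import Pool.Agent.Helper44.QL.MCharT

/-!
# The element `z` of order 151, and perfectness of `GG ⊤ C Y`
-/

set_option autoImplicit false
set_option linter.unusedSectionVars false

namespace QN43

section A0
variable (J : Type) [AddCommGroup J] [Module (ZMod 2) J] [Module (ZMod 2)ᵐᵒᵖ J]
  [IsCentralScalar (ZMod 2) J]

/-- `F_2 → A0 J`. -/
def incA : ZMod 2 →+* A0 J := TrivSqZeroExt.inlHom (ZMod 2) J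

theorem hsqA (a b : A0 J) (ha : QL44.fstR J a = 0) (hb : QL44.fstR J b = 0) : a * b = 0 := by
  rw [QL44.fstR_apply] at ha hb
  apply TrivSqZeroExt.ext
  · rw [TrivSqZeroExt.fst_mul, ha, zero_mul, TrivSqZeroExt.fst_zero]
  · rw [TrivSqZeroExt.snd_mul, ha, hb, zero_smul, MulOpposite.op_zero, zero_smul, add_zero,
      TrivSqZeroExt.snd_zero]

theorem exists_zA : ∃ z : (Mt (A0 J))ˣ, orderOf z = 151 := by
  obtain ⟨z0, hz0⟩ := QG40.exists_z
  refine ⟨QG40.cst (incA J) z0, ?_⟩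
  rw [QG40.orderOf_cst (incA J) (QL44.fstR J)]
  exact hz0

variable {J}

theorem sum_zA (z : (Mt (A0 J))ˣ) (hz : orderOf z = 151) :
    ∑ i ∈ Finset.range 151, (z : Mt (A0 J)) ^ i = 0 :=
  QG40.sumA (incA J) (QL44.fstR J) (hsqA J) z hz

theorem sum_zA_inv (z : (Mt (A0 J))ˣ) (hz : orderOf z = 151) :
    ∑ i ∈ Finset.range 151, ((z⁻¹ : (Mt (A0 J))ˣ) : Mt (A0 J)) ^ i = 0 :=
  sum_zA z⁻¹ (by rw [orderOf_inv, hz])

end A0

section generic

variable {G M : Type} [Group G] [AddCommGroup M] [DistribMulAction G M]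

theorem fix_zero_of_sum (h2 : ∀ m : M, m + m = 0) (g : G)
    (hs : ∀ m : M, ∑ i ∈ Finset.range 151, g ^ i • m = 0) (m : M) (hm : g • m = m) : m = 0 := by
  have h1 : ∀ i : ℕ, g ^ i • m = m := by
    intro i
    induction i with
    | zero => simp
    | succ i ih => rw [pow_succ, mul_smul, hm, ih]
  have h3 := hs m
  rw [Finset.sum_congr rfl fun i _ => h1 i, Finset.sum_const, Finset.card_range] at h3
  have h4 : (151 : ℕ) • m = m + 75 • (2 • m) := by
    rw [← mul_nsmul, ← succ_nsmul']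
  rw [h4, two_nsmul, h2, smul_zero, add_zero] at h3
  exact h3

theorem exists_sub_of_sum [Finite M] (h2 : ∀ m : M, m + m = 0) (g : G)
    (hs : ∀ m : M, ∑ i ∈ Finset.range 151, g ^ i • m = 0) (m : M) : ∃ v : M, m = g • v - v := by
  have hinj : Function.Injective (fun v : M => g • v - v) := by
    intro v w hvw
    have h1 : g • (v - w) = v - w := by
      have h3 : g • v - v = g • w - w := hvw
      rw [smul_sub]
      rw [sub_eq_sub_iff_add_eq_add] at h3 ⊢
      rw [h3]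
      abel
    have h4 := fix_zero_of_sum h2 g hs _ h1
    exact sub_eq_zero.1 h4
  obtain ⟨v, hv⟩ := (Finite.injective_iff_surjective.1 hinj) m
  exact ⟨v, hv.symm⟩

end generic

section

variable {A : Type} [CommRing A] {B : Type} [Ring B] {κ : A →+* B}
variable {E : Type} [AddCommGroup E] [Module A E]
variable {C Y : Type} [Group C] [AddCommGroup Y] [Module B Y] [DistribMulAction C Y]
  [SMulCommClass C B Y]

/-- `sig g` as an element of `X × C`. -/
def sg (X : Subgroup (NN κ E)) (hX : G1s κ E ≤ X) (C : Type) [Group C] : (Mt A)ˣ →* X × C where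
  toFun g := (⟨sig κ E g, hX ⟨g, rfl⟩⟩, 1)
  map_one' := by
    refine Prod.ext ?_ rfl
    exact Subtype.ext (map_one (sig κ E))
  map_mul' g h := by
    refine Prod.ext ?_ ?_
    · exact Subtype.ext (map_mul (sig κ E) g h)
    · show (1 : C) = 1 * 1
      rw [one_mul]

theorem sg_fst (X : Subgroup (NN κ E)) (hX : G1s κ E ≤ X) (g : (Mt A)ˣ) (w : WW E Y) :
    (sg X hX C g • w).1 = mact (g : Mt A) w.1 := rfl

theorem sg_snd (X : Subgroup (NN κ E)) (hX : G1s κ E ≤ X) (g : (Mt A)ˣ) (w : WW E Y) :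
    (sg X hX C g • w).2 = mact (kT κ ((g⁻¹ : (Mt A)ˣ) : Mt A)) w.2 := by
  rw [ww_snd]
  show mact _ (fun i => (1 : C) • w.2 i) = _
  simp only [one_smul]
  rfl

theorem mact_sum_apply {R M : Type} [Ring R] [AddCommGroup M] [Module R M] (s : Finset ℕ)
    (f : ℕ → Mt R) (v : Fin 15 → M) : mact (∑ i ∈ s, f i) v = ∑ i ∈ s, mact (f i) v := by
  rw [map_sum]
  exact AddMonoidHom.finset_sum_apply _ _ _

theorem kT_sum (s : Finset ℕ) (f : ℕ → Mt A) :
    kT κ (∑ i ∈ s, f i) = ∑ i ∈ s, kT κ (f i) := by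
  funext i j
  rw [kT_apply, Matrix.sum_apply, Matrix.sum_apply, map_sum]
  rfl

theorem kT_zero : kT κ (0 : Mt A) = 0 := by
  funext i j
  simp

/-- the first projection -/
def WW.p1 (E Y : Type) [AddCommGroup E] [AddCommGroup Y] : WW E Y →+ (Fin 15 → E) :=
  AddMonoidHom.fst (Fin 15 → E) (Fin 15 → Y)
/-- the second projection -/
def WW.p2 (E Y : Type) [AddCommGroup E] [AddCommGroup Y] : WW E Y →+ (Fin 15 → Y) :=
  AddMonoidHom.snd (Fin 15 → E) (Fin 15 → Y)

theorem WW.p1_apply (w : WW E Y) : WW.p1 E Y w = w.1 := rfl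
theorem WW.p2_apply (w : WW E Y) : WW.p2 E Y w = w.2 := rfl

theorem sg_sum (X : Subgroup (NN κ E)) (hX : G1s κ E ≤ X) (z : (Mt A)ˣ)
    (hz : ∑ i ∈ Finset.range 151, (z : Mt A) ^ i = 0)
    (hz' : ∑ i ∈ Finset.range 151, ((z⁻¹ : (Mt A)ˣ) : Mt A) ^ i = 0) (w : WW E Y) :
    ∑ i ∈ Finset.range 151, (sg X hX C z) ^ i • w = 0 := by
  refine Prod.ext ?_ ?_
  · show WW.p1 E Y (∑ i ∈ Finset.range 151, (sg X hX C z) ^ i • w) = 0
    rw [map_sum]
    have h1 : ∀ i : ℕ, WW.p1 E Y ((sg X hX C z) ^ i • w) = mact ((z : Mt A) ^ i) w.1 := by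
      intro i
      rw [WW.p1_apply, ← map_pow, sg_fst, Units.val_pow_eq_pow_val]
    rw [Finset.sum_congr rfl fun i _ => h1 i, ← mact_sum_apply, hz, map_zero]
    rfl
  · show WW.p2 E Y (∑ i ∈ Finset.range 151, (sg X hX C z) ^ i • w) = 0
    rw [map_sum]
    have h1 : ∀ i : ℕ, WW.p2 E Y ((sg X hX C z) ^ i • w)
        = mact (kT κ (((z⁻¹ : (Mt A)ˣ) : Mt A) ^ i)) w.2 := by
      intro i
      rw [WW.p2_apply, ← map_pow, sg_snd, ← inv_pow, Units.val_pow_eq_pow_val]
    rw [Finset.sum_congr rfl fun i _ => h1 i, ← mact_sum_apply, ← kT_sum, hz', kT_zero, map_zero]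
    rfl

theorem ww_two (hA : (2 : A) = 0) (w : WW E Y) (hB : (2 : B) = 0) : w + w = 0 := by
  have h1 : ∀ x : E, x + x = 0 := fun x => by
    rw [← two_smul A x, hA, zero_smul]
  have h2 : ∀ x : Y, x + x = 0 := fun x => by
    rw [← two_smul B x, hB, zero_smul]
  refine Prod.ext ?_ ?_
  · funext i
    exact h1 (w.1 i)
  · funext i
    exact h2 (w.2 i)

end

section A0

variable {J : Type} [AddCommGroup J] [Module (ZMod 2) J] [Module (ZMod 2)ᵐᵒᵖ J]
  [IsCentralScalar (ZMod 2) J]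
variable {B : Type} [Ring B] {κ : A0 J →+* B}
variable {E : Type} [AddCommGroup E] [Module (A0 J) E]
variable {C Y : Type} [Group C] [AddCommGroup Y] [Module B Y] [DistribMulAction C Y]
  [SMulCommClass C B Y]

theorem two_A0 : (2 : A0 J) = 0 := QG40.two_eq_zero (incA J)

theorem two_B (κ : A0 J →+* B) : (2 : B) = 0 := by
  have h := map_ofNat κ 2
  rw [← h]
  have h2 : (OfNat.ofNat 2 : A0 J) = 0 := two_A0
  rw [h2, map_zero]

theorem ww_add_self (κ : A0 J →+* B) (w : WW E Y) : w + w = 0 :=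
  ww_two (A := A0 J) (B := B) two_A0 w (two_B κ)

/-- `∑ z^i w = 0`. -/
theorem sg_sum151 (X : Subgroup (NN κ E)) (hX : G1s κ E ≤ X) (z : (Mt (A0 J))ˣ)
    (hz : orderOf z = 151) (w : WW E Y) :
    ∑ i ∈ Finset.range 151, (sg X hX C z) ^ i • w = 0 :=
  sg_sum X hX z (sum_zA z hz) (sum_zA_inv z hz) w

theorem sg_fix (X : Subgroup (NN κ E)) (hX : G1s κ E ≤ X) (z : (Mt (A0 J))ˣ)
    (hz : orderOf z = 151) (w : WW E Y) (hw : sg X hX C z • w = w) : w = 0 :=
  fix_zero_of_sum (ww_add_self κ) _ (sg_sum151 X hX z hz) w hw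

theorem sg_exists_sub [Finite E] [Finite Y] (X : Subgroup (NN κ E)) (hX : G1s κ E ≤ X)
    (z : (Mt (A0 J))ˣ) (hz : orderOf z = 151) (w : WW E Y) :
    ∃ v : WW E Y, w = sg X hX C z • v - v :=
  exists_sub_of_sum (ww_add_self κ) _ (sg_sum151 X hX z hz) w

theorem inl_mem_commutator [Finite E] [Finite Y] (X : Subgroup (NN κ E)) (hX : G1s κ E ≤ X)
    (w : WW E Y) : (SD.inl w : GG X C Y) ∈ commutator (GG X C Y) := by
  obtain ⟨z, hz⟩ := exists_zA J
  obtain ⟨v, rfl⟩ := sg_exists_sub (C := C) X hX z hz w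
  have h : (SD.inl (sg X hX C z • v - v) : GG X C Y) =
      (SD.inr (sg X hX C z) : GG X C Y) * SD.inl v * (SD.inr (sg X hX C z))⁻¹ * (SD.inl v)⁻¹ := by
    rw [SD.conj_inl]
    ext1
    · simp [sub_eq_add_neg]
    · simp
  rw [h]
  exact Subgroup.commutator_mem_commutator (Subgroup.mem_top _) (Subgroup.mem_top _)

/-- a pair commuting with `(0, z)` has trivial vector part -/
theorem v_zero_of_comm (X : Subgroup (NN κ E)) (hX : G1s κ E ≤ X) (z : (Mt (A0 J))ˣ)
    (hz : orderOf z = 151) (g : GG X C Y)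
    (hg : g * SD.inr (sg X hX C z) = SD.inr (sg X hX C z) * g) : g.v = 0 := by
  have h := congrArg SD.v hg
  have h1 : sg X hX C z • g.v = g.v := by simpa using h.symm
  exact sg_fix X hX z hz g.v h1

/-- `(w, (z, 1))` has order dividing `151`. -/
theorem inl_inr_pow (X : Subgroup (NN κ E)) (hX : G1s κ E ≤ X) (z : (Mt (A0 J))ˣ)
    (hz : orderOf z = 151) (w : WW E Y) :
    ((SD.inl w * SD.inr (sg X hX C z) : GG X C Y)) ^ 151 = 1 := by
  have h1 : ∀ n : ℕ, ((SD.inl w * SD.inr (sg X hX C z) : GG X C Y)) ^ n =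
      ⟨∑ i ∈ Finset.range n, (sg X hX C z) ^ i • w, (sg X hX C z) ^ n⟩ := by
    intro n
    induction n with
    | zero =>
      ext1
      · simp
      · simp
    | succ n ih =>
      rw [pow_succ, ih]
      ext1
      · simp [Finset.sum_range_succ]
      · simp [pow_succ]
  rw [h1 151, sg_sum151 X hX z hz w, ← map_pow, ← hz, pow_orderOf_eq_one, map_one]
  rfl

/-- `GG ⊤ C Y` is perfect when `NN` and `C` are. -/
theorem GG_perf [Finite E] [Finite Y] (hN : commutator (NN κ E) = ⊤) (hC : commutator C = ⊤) :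
    commutator (GG (⊤ : Subgroup (NN κ E)) C Y) = ⊤ := by
  rw [eq_top_iff]
  intro g _
  rw [SD.eq_mul g]
  refine mul_mem (inl_mem_commutator ⊤ le_top g.v) ?_
  -- the part in `⊤ × C`
  have h1 : ∀ n : NN κ E, n ∈ commutator (NN κ E) →
      (SD.inr ((⟨n, trivial⟩ : (⊤ : Subgroup (NN κ E))), (1 : C)) :
        GG (⊤ : Subgroup (NN κ E)) C Y) ∈ commutator (GG (⊤ : Subgroup (NN κ E)) C Y) := by
    intro n hn
    let f : NN κ E →* GG (⊤ : Subgroup (NN κ E)) C Y :=
      { toFun := fun n => SD.inr ((⟨n, trivial⟩ : (⊤ : Subgroup (NN κ E))), (1 : C))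
        map_one' := rfl
        map_mul' := fun a b => by
          rw [← map_mul]
          congr 1
          refine Prod.ext rfl ?_
          show (1 : C) = 1 * 1
          rw [one_mul] }
    have h2 : (commutator (NN κ E)).map f ≤ commutator (GG (⊤ : Subgroup (NN κ E)) C Y) := by
      rw [commutator_def, Subgroup.map_commutator, commutator_def]
      exact Subgroup.commutator_mono le_top le_top
    exact h2 ⟨n, hn, rfl⟩
  have h3 : ∀ c : C, c ∈ commutator C →
      (SD.inr ((1 : (⊤ : Subgroup (NN κ E))), c) :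
        GG (⊤ : Subgroup (NN κ E)) C Y) ∈ commutator (GG (⊤ : Subgroup (NN κ E)) C Y) := by
    intro c hc
    let f : C →* GG (⊤ : Subgroup (NN κ E)) C Y :=
      { toFun := fun c => SD.inr ((1 : (⊤ : Subgroup (NN κ E))), c)
        map_one' := rfl
        map_mul' := fun a b => by
          rw [← map_mul]
          congr 1
          refine Prod.ext ?_ rfl
          show (1 : (⊤ : Subgroup (NN κ E))) = 1 * 1
          rw [one_mul] }
    have h2 : (commutator C).map f ≤ commutator (GG (⊤ : Subgroup (NN κ E)) C Y) := by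
      rw [commutator_def, Subgroup.map_commutator, commutator_def]
      exact Subgroup.commutator_mono le_top le_top
    exact h2 ⟨c, hc, rfl⟩
  have h4 : (SD.inr g.c : GG (⊤ : Subgroup (NN κ E)) C Y) =
      SD.inr ((⟨g.c.1.1, trivial⟩ : (⊤ : Subgroup (NN κ E))), (1 : C)) *
        SD.inr ((1 : (⊤ : Subgroup (NN κ E))), g.c.2) := by
    rw [← map_mul]
    congr 1
    refine Prod.ext ?_ ?_
    · show g.c.1 = _ * 1
      rw [mul_one]
    · show g.c.2 = 1 * g.c.2
      rw [one_mul]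
  rw [h4]
  exact mul_mem (h1 _ (by rw [hN]; trivial)) (h3 _ (by rw [hC]; trivial))

end A0

end QN43
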