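import Mathlib
import Pool.Agent.Helper43.QN.Main
import Pool.Agent.Helper43.QN.Perf
import Pool.Agent.Helper46.QB.Adapter
import Pool.Agent.Helper58.AU.Dual

/-!
# `S00834` from `GFacts`
-/

set_option autoImplicit false
set_option linter.unusedSectionVars false

namespace QN43

variable {J B E W U O : Type}
    [AddCommGroup J] [Module (ZMod 2) J] [Module (ZMod 2)ᵐᵒᵖ J] [IsCentralScalar (ZMod 2) J]
    [Ring B] [AddCommGroup E] [Module (A0 J) E] [AddCommGroup W] [Module (A0 J) W]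
    [AddCommGroup U] [Module B U] [Group O] [DistribMulAction O W] [DistribMulAction O U]
    {κ : A0 J →+* B} {inc : E →+ W} {jU : U →+ (W →+ ZMod 2)} {Φ : J ≃+ (Fin 15 → W)}
    {p : NN0 κ E →* O}

theorem main_of_g (h : GFacts κ inc jU Φ p) :
    ¬ (∃ f : ℕ → ℕ, ∀ (G : Type) [Group G] [Finite G], ∀ i : ℕ,
      Nat.card ((fun H : GrpCat => GrpCat.of (MulAut H))^[i] (GrpCat.of G)) ≤ f (Nat.card G)) := by
  have h1 := h.finB
  have h2 : Nontrivial B := h.kapInj.nontrivial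
  obtain ⟨C, iC, Y, iY, iM, iA, iS, hO⟩ := QB46.odd_base B (two_B κ)
  exact main_of h ⟨C, Y, iC, iY, iM, iA, iS, hO⟩

/-- **`S00834` from part A.** -/
theorem main_of_l {J BB E W Q O : Type}
    [AddCommGroup J] [Module (ZMod 2) J] [Module (ZMod 2)ᵐᵒᵖ J] [IsCentralScalar (ZMod 2) J]
    [Ring BB] [AddCommGroup E] [Module (A0 J) E] [AddCommGroup W] [Module (A0 J) W]
    [AddCommGroup Q] [Module BB Q] [Group O] [DistribMulAction O W] [DistribMulAction O Q]
    {ι : A0 J →+* BB} {inc : E →+ W} {pi : W →+ Q} {Φ : J ≃+ (Fin 15 → W)}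
    {p : NN0 ι E →* O} (h : LFacts ι inc pi Φ p) :
    ¬ (∃ f : ℕ → ℕ, ∀ (G : Type) [Group G] [Finite G], ∀ i : ℕ,
      Nat.card ((fun H : GrpCat => GrpCat.of (MulAut H))^[i] (GrpCat.of G)) ≤ f (Nat.card G)) :=
  main_of_g (QU58.gfacts h)

end QN43
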